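import Mathlib

open MeasureTheory ProbabilityTheory Matrix
open scoped ENNReal ComplexOrder

namespace Pool.Agent.NH90.QB

/-- A density matrix on `ℂ^d`: a positive semidefinite matrix of trace one. -/
structure State (d : ℕ) where
  /-- the matrix -/
  mat : Matrix (Fin d) (Fin d) ℂ
  posSemidef : mat.PosSemidef
  trace_eq : mat.trace = 1

/-- The set of rank-one orthogonal projectors on `ℂ^d`. -/
def Proj (d : ℕ) : Type :=
  {P : Matrix (Fin d) (Fin d) ℂ // P.IsHermitian ∧ P * P = P ∧ P.rank = 1}

variable {d : ℕ}

noncomputable instance instTopProj : TopologicalSpace (Proj d) := instTopologicalSpaceSubtype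

/-- The projectors carry their Borel sigma-algebra. -/
noncomputable instance instMSProj : MeasurableSpace (Proj d) := borel (Proj d)

instance instBorelProj : BorelSpace (Proj d) := ⟨rfl⟩

/-- Born's rule: the mean reward of the projector `P` in the state `ρ`. -/
noncomputable def born (ρ : State d) (P : Proj d) : ℝ := ((ρ.mat * P.1).trace).re

/-- Histories after `t` rounds: the actions and the rewards of the first `t` rounds. -/
def Hist (d : ℕ) : ℕ → Type
  | 0 => Unit
  | t + 1 => Hist d t × (Proj d × Bool)

/-- The product sigma-algebra on histories. -/
noncomputable instance instMSHist (d : ℕ) : (t : ℕ) → MeasurableSpace (Hist d t)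
  | 0 => (inferInstance : MeasurableSpace Unit)
  | t + 1 => @Prod.instMeasurableSpace (Hist d t) (Proj d × Bool) (instMSHist d t) inferInstance

/-- A policy: for every round a probability kernel which chooses the action given the history. -/
structure Policy (d : ℕ) where
  /-- the kernel used in round `t + 1` -/
  ker : (t : ℕ) → Kernel (Hist d t) (Proj d)
  markov : ∀ t, IsMarkovKernel (ker t)

theorem continuous_born (ρ : State d) : Continuous (born ρ) := by
  unfold born
  apply Complex.continuous_re.comp
  apply Continuous.matrix_trace
  exact Continuous.matrix_mul continuous_const continuous_subtype_val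

theorem measurable_born (ρ : State d) : Measurable (born ρ) := (continuous_born ρ).measurable

/-- The reward kernel: after the action `P` the reward is `1` (`true`) with probability
`Tr(ρ P)` and `0` (`false`) otherwise. -/
noncomputable def reward (ρ : State d) : Kernel (Proj d) Bool where
  toFun P := ENNReal.ofReal (born ρ P) • Measure.dirac true +
    ENNReal.ofReal (1 - born ρ P) • Measure.dirac false
  measurable' := by
    apply Measure.measurable_of_measurable_coe
    intro s _
    simp only [Measure.coe_add, Measure.coe_smul, Pi.add_apply, Pi.smul_apply, smul_eq_mul]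
    apply Measurable.add
    · exact ((measurable_born ρ).ennreal_ofReal).mul_const _
    · exact ((measurable_const.sub (measurable_born ρ)).ennreal_ofReal).mul_const _

/-- The joint law of the actions and rewards of the first `t` rounds. -/
noncomputable def law (ρ : State d) (π : Policy d) : (t : ℕ) → Measure (Hist d t)
  | 0 => Measure.dirac ()
  | t + 1 => (law ρ π t) ⊗ₘ (π.ker t ⊗ₖ (reward ρ).comap Prod.snd measurable_snd)

/-- The largest mean reward `max_P Tr(ρ P)`. -/
noncomputable def best (ρ : State d) : ℝ := ⨆ P : Proj d, born ρ P

/-- The regret `∑ (max_P Tr(ρ P) - Tr(ρ Π_s))` along a history. -/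
noncomputable def regret (ρ : State d) : (t : ℕ) → Hist d t → ℝ
  | 0, _ => 0
  | t + 1, h => regret ρ t h.1 + (best ρ - born ρ h.2.1)

/-- The expected regret of the policy `π` in the state `ρ` after `T` rounds. -/
noncomputable def expRegret (ρ : State d) (π : Policy d) (T : ℕ) : ℝ :=
  ∫ h, regret ρ T h ∂(law ρ π T)

/-- The minimax regret `R*_T(d)`. -/
noncomputable def minimax (d T : ℕ) : ℝ :=
  ⨅ π : Policy d, ⨆ ρ : State d, expRegret ρ π T

end Pool.Agent.NH90.QB
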