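import Pool.Agent.NH90.QB.Geom

open MeasureTheory ProbabilityTheory Matrix
open scoped ENNReal ComplexOrder

namespace Pool.Agent.NH90.QB

variable {d : ℕ}

/-- signs -/
def sg : Fin 2 → ℂ := ![1, -1]

/-- phases -/
noncomputable def ph : Fin 4 → ℂ := ![1, Complex.I, -1, -Complex.I]

theorem norm_sg (a : Fin 2) : ‖sg a‖ = 1 := by fin_cases a <;> simp [sg]

theorem norm_ph (a : Fin 4) : ‖ph a‖ = 1 := by fin_cases a <;> simp [ph]

/-- unit vectors -/
noncomputable def ee (i : Fin d) : Fin d → ℂ := Pi.single i 1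

theorem nrm_ee (i : Fin d) : nrm (ee i) = 1 := by
  have h : nrm (ee i) ^ 2 = 1 := by
    rw [nrm_sq, Finset.sum_eq_single i]
    · simp [ee]
    · intro j _ hj; simp [ee, Pi.single_eq_of_ne hj]
    · simp
  nlinarith [nrm_nonneg (ee i)]

/-- index type of the directions -/
abbrev Ix (d : ℕ) : Type := (Fin d × Fin d) × (Fin 2 × Fin 4)

/-- the direction measured -/
noncomputable def dir (s : St d) (a : Ix d) : Fin d → ℂ :=
  (3 : ℂ) • s.u + (sg a.2.1 • (s.B *ᵥ ee a.1.1) + (sg a.2.1 * ph a.2.2) • (s.B *ᵥ ee a.1.2))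

theorem nrm_B_ee (s : St d) (i : Fin d) : nrm (s.B *ᵥ ee i) ≤ 1 := by
  have h := s.le (s.B *ᵥ ee i)
  rw [mulVec_mulVec, s.AB, one_mulVec, nrm_ee] at h
  exact h

theorem dir_ge (s : St d) (a : Ix d) : 1 ≤ nrm (dir s a) := by
  have h1 := le_nrm_add ((3 : ℂ) • s.u)
    (sg a.2.1 • (s.B *ᵥ ee a.1.1) + (sg a.2.1 * ph a.2.2) • (s.B *ᵥ ee a.1.2))
  have h2 := nrm_add_le (sg a.2.1 • (s.B *ᵥ ee a.1.1)) ((sg a.2.1 * ph a.2.2) • (s.B *ᵥ ee a.1.2))
  rw [nrm_smul, nrm_smul, norm_mul, norm_sg, norm_ph] at h2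
  rw [nrm_smul, s.nu] at h1
  have h3 := nrm_B_ee s a.1.1
  have h4 := nrm_B_ee s a.1.2
  have h5 : ‖(3 : ℂ)‖ = 3 := by norm_num
  rw [h5] at h1
  unfold dir
  linarith

theorem dir_le (s : St d) (a : Ix d) : nrm (dir s a) ≤ 5 := by
  have h1 := nrm_add_le ((3 : ℂ) • s.u)
    (sg a.2.1 • (s.B *ᵥ ee a.1.1) + (sg a.2.1 * ph a.2.2) • (s.B *ᵥ ee a.1.2))
  have h2 := nrm_add_le (sg a.2.1 • (s.B *ᵥ ee a.1.1)) ((sg a.2.1 * ph a.2.2) • (s.B *ᵥ ee a.1.2))
  rw [nrm_smul, nrm_smul, norm_mul, norm_sg, norm_ph] at h2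
  rw [nrm_smul, s.nu] at h1
  have h3 := nrm_B_ee s a.1.1
  have h4 := nrm_B_ee s a.1.2
  have h5 : ‖(3 : ℂ)‖ = 3 := by norm_num
  rw [h5] at h1
  unfold dir
  linarith

theorem A_dir_le (s : St d) (a : Ix d) : nrm (s.A *ᵥ dir s a) ≤ 5 := by
  have e : s.A *ᵥ dir s a = (3 : ℂ) • (s.A *ᵥ s.u) +
      (sg a.2.1 • ee a.1.1 + (sg a.2.1 * ph a.2.2) • ee a.1.2) := by
    unfold dir
    rw [mulVec_add, mulVec_add, mulVec_smul, mulVec_smul, mulVec_smul, mulVec_mulVec,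
      mulVec_mulVec, s.AB, one_mulVec, one_mulVec]
  rw [e]
  have h1 := nrm_add_le ((3 : ℂ) • (s.A *ᵥ s.u))
    (sg a.2.1 • (ee a.1.1) + (sg a.2.1 * ph a.2.2) • (ee a.1.2))
  have h2 := nrm_add_le (sg a.2.1 • (ee a.1.1)) ((sg a.2.1 * ph a.2.2) • (ee a.1.2))
  rw [nrm_smul, nrm_smul, norm_mul, norm_sg, norm_ph, nrm_ee, nrm_ee] at h2
  rw [nrm_smul, s.nAu] at h1
  have h5 : ‖(3 : ℂ)‖ = 3 := by norm_num
  rw [h5] at h1
  linarith

theorem dir_ne (s : St d) (a : Ix d) : dir s a ≠ 0 := by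
  intro h
  have h1 := dir_ge s a
  rw [h, nrm_eq_zero.2 rfl] at h1
  linarith

/-- the Hermitian weight without the scalar factor -/
noncomputable def wt (a : Ix d) : SA d :=
  ⟨single a.1.1 a.1.2 (star (ph a.2.2)) + single a.1.2 a.1.1 (ph a.2.2), by
    change (single a.1.1 a.1.2 (star (ph a.2.2)) + single a.1.2 a.1.1 (ph a.2.2))ᴴ = _
    rw [conjTranspose_add, conjTranspose_single, conjTranspose_single, star_star, add_comm]⟩

/-- the projector measured -/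
noncomputable def pr (s : St d) (a : Ix d) : Proj d := mkProj (dir s a) (dir_ne s a)

/-- the Hermitian weight -/
noncomputable def wtN (s : St d) (N : ℕ) (a : Ix d) : SA d :=
  (nrm (dir s a) ^ 2 / (16 * N) : ℝ) • wt a

/-- the list of measurements of one phase -/
noncomputable def lst (s : St d) (N : ℕ) : List (Proj d × SA d) :=
  (Finset.univ : Finset (Ix d × Fin N)).toList.map (fun a => (pr s a.1, wtN s N a.1))

theorem lst_length (s : St d) (N : ℕ) : (lst s N).length = 8 * d ^ 2 * N := by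
  unfold lst
  simp only [List.length_map, Finset.length_toList, Finset.card_univ, Fintype.card_prod,
    Fintype.card_fin]
  ring

theorem sum_lst {β : Type} [AddCommMonoid β] (s : St d) (N : ℕ) (f : Proj d × SA d → β) :
    ((lst s N).map f).sum = ∑ a : Ix d × Fin N, f (pr s a.1, wtN s N a.1) := by
  unfold lst
  rw [List.map_map, ← Finset.sum_map_toList]
  rfl

theorem mean_eq (ρ : State d) (L : List (Proj d × SA d)) :
    mean ρ L = (L.map (fun x => born ρ x.1 • x.2)).sum := by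
  induction L with
  | nil => rfl
  | cons x L ih => simp only [mean, List.map_cons, List.sum_cons, ih]; rw [add_comm]

/-- cost of an exploration phase -/
theorem cost_explore (ρ : State d) (s : St d) (N : ℕ) {g : ℝ} (hg : 0 ≤ g)
    (h : ∀ v, gap ρ v ≤ g * nrm (s.A *ᵥ v) ^ 2) :
    Prog.cost ρ (sample (lst s N)) ≤ 25 * g * (8 * d ^ 2 * N) := by
  rw [cost_sample, sum_lst s N (fun x => best ρ - born ρ x.1)]
  have h1 : ∀ a : Ix d × Fin N, best ρ - born ρ (pr s a.1) ≤ 25 * g := by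
    intro a
    rw [pr, born_mkProj]
    have h2 := h (dir s a.1)
    have h3 := A_dir_le s a.1
    have h4 := dir_ge s a.1
    have h5 := nrm_nonneg (s.A *ᵥ dir s a.1)
    have h6 : nrm (s.A *ᵥ dir s a.1) ^ 2 ≤ 25 := by nlinarith
    have h7 : 1 ≤ nrm (dir s a.1) ^ 2 := by nlinarith
    have h8 : gap ρ (dir s a.1) ≤ 25 * g := by
      have := mul_le_mul_of_nonneg_left h6 hg
      linarith
    have h9 : best ρ - qf ρ.mat (dir s a.1) / nrm (dir s a.1) ^ 2 =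
        gap ρ (dir s a.1) / nrm (dir s a.1) ^ 2 := by
      unfold gap
      field_simp
    rw [h9, div_le_iff₀ (by linarith)]
    nlinarith
  calc ∑ a : Ix d × Fin N, (best ρ - born ρ (pr s a.1))
      ≤ ∑ a : Ix d × Fin N, 25 * g := Finset.sum_le_sum fun a _ => h1 a
    _ = 25 * g * (8 * d ^ 2 * N) := by
      rw [Finset.sum_const, nsmul_eq_mul, mul_comm]
      congr 1
      simp only [Finset.card_univ, Fintype.card_prod, Fintype.card_fin]
      push_cast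
      ring

theorem nrm_wt_le (a : Ix d) (v : Fin d → ℂ) :
    nrm ((wt a).1 *ᵥ v) ^ 2 ≤ 2 * (‖v a.1.1‖ ^ 2 + ‖v a.1.2‖ ^ 2) := by
  have e : (wt a).1 *ᵥ v = (star (ph a.2.2) * v a.1.2) • ee a.1.1 + (ph a.2.2 * v a.1.1) • ee a.1.2 := by
    change (single a.1.1 a.1.2 (star (ph a.2.2)) + single a.1.2 a.1.1 (ph a.2.2)) *ᵥ v = _
    rw [add_mulVec, single_mulVec, single_mulVec]
    congr 1
    · funext k; simp [ee, Pi.single_apply, Function.update_apply]
    · funext k; simp [ee, Pi.single_apply, Function.update_apply]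
  rw [e]
  have h1 := nrm_add_le ((star (ph a.2.2) * v a.1.2) • ee a.1.1) ((ph a.2.2 * v a.1.1) • ee a.1.2)
  rw [nrm_smul, nrm_smul, norm_mul, norm_mul, norm_star, norm_ph, nrm_ee, nrm_ee, one_mul, one_mul,
    mul_one, mul_one] at h1
  have h2 := nrm_nonneg ((star (ph a.2.2) * v a.1.2) • ee a.1.1 + (ph a.2.2 * v a.1.1) • ee a.1.2)
  calc _ ≤ (‖v a.1.2‖ + ‖v a.1.1‖) ^ 2 := pow_le_pow_left₀ h2 h1 2
    _ ≤ _ := by nlinarith [sq_nonneg (‖v a.1.2‖ - ‖v a.1.1‖)]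

theorem weight_bound (s : St d) {N : ℕ} (hN : 0 < N) (v : Fin d → ℂ) :
    ((lst s N).map (fun x => nrm (x.2.1 *ᵥ v) ^ 2)).sum ≤ (79 * d / N) * nrm v ^ 2 := by
  rw [sum_lst s N (fun x => nrm (x.2.1 *ᵥ v) ^ 2)]
  have hN' : (0 : ℝ) < N := by exact_mod_cast hN
  have h1 : ∀ a : Ix d × Fin N,
      nrm ((wtN s N a.1).1 *ᵥ v) ^ 2 ≤
        (625 / 128 / N ^ 2) * (‖v a.1.1.1‖ ^ 2 + ‖v a.1.1.2‖ ^ 2) := by
    intro a
    have e : (wtN s N a.1).1 *ᵥ v =
        (((nrm (dir s a.1) ^ 2 / (16 * N) : ℝ)) : ℂ) • ((wt a.1).1 *ᵥ v) := by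
      rw [← smul_mulVec]
      congr 1
    rw [e, nrm_smul, mul_pow, Complex.norm_real, Real.norm_eq_abs, sq_abs]
    have h2 := nrm_wt_le a.1 v
    have h3 := dir_le s a.1
    have h4 := nrm_nonneg (dir s a.1)
    have h5 : nrm (dir s a.1) ^ 2 ≤ 25 := by nlinarith
    have h6 : (nrm (dir s a.1) ^ 2 / (16 * N) : ℝ) ^ 2 ≤ 625 / 256 / N ^ 2 := by
      rw [div_pow, div_div, div_le_div_iff₀ (by positivity) (by positivity)]
      have : (nrm (dir s a.1) ^ 2) ^ 2 ≤ 625 := by nlinarith [sq_nonneg (nrm (dir s a.1))]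
      nlinarith [sq_nonneg (N : ℝ)]
    calc _ ≤ (625 / 256 / N ^ 2 : ℝ) * (2 * (‖v a.1.1.1‖ ^ 2 + ‖v a.1.1.2‖ ^ 2)) := by
          apply mul_le_mul h6 h2 (by positivity) (by positivity)
      _ = _ := by ring
  refine (Finset.sum_le_sum fun a _ => h1 a).trans ?_
  rw [← Finset.mul_sum, Fintype.sum_prod_type]
  simp only [Finset.sum_const, Finset.card_univ, Fintype.card_fin, nsmul_eq_mul]
  rw [← Finset.mul_sum, Fintype.sum_prod_type]
  simp only [Finset.sum_const, Finset.card_univ, Fintype.card_prod, Fintype.card_fin, nsmul_eq_mul]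
  rw [← Finset.mul_sum, Fintype.sum_prod_type]
  simp only [Finset.sum_add_distrib, Finset.sum_const, Finset.card_univ, Fintype.card_fin,
    nsmul_eq_mul]
  rw [← Finset.mul_sum, nrm_sq]
  have hs : 0 ≤ ∑ i, ‖v i‖ ^ 2 := Finset.sum_nonneg fun i _ => by positivity
  have hd : (0 : ℝ) ≤ d := Nat.cast_nonneg d
  have e : (625 / 128 / (N : ℝ) ^ 2) * (N * (((2 * 4 : ℕ) : ℝ) *
      (d * ∑ i, ‖v i‖ ^ 2 + d * ∑ i, ‖v i‖ ^ 2))) = (78.125 * d / N) * ∑ i, ‖v i‖ ^ 2 := by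
    push_cast
    field_simp
    ring
  rw [e]
  apply mul_le_mul_of_nonneg_right _ hs
  apply div_le_div_of_nonneg_right _ hN'.le
  nlinarith

/-- parallelogram law -/
theorem qf_para (M : Matrix (Fin d) (Fin d) ℂ) (x y : Fin d → ℂ) :
    qf M (x + y) + qf M (x + (-1 : ℂ) • y) = 2 * qf M x + 2 * qf M y := by
  unfold qf
  simp only [mulVec_add, mulVec_smul, star_add, star_smul, add_dotProduct, dotProduct_add,
    smul_dotProduct, dotProduct_smul, smul_eq_mul]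
  simp
  ring

/-- polarisation -/
theorem polar {M : Matrix (Fin d) (Fin d) ℂ} (hM : Mᴴ = M) (x y : Fin d → ℂ) :
    ∑ t : Fin 4, star (ph t) * ((qf M (x + ph t • y) : ℝ) : ℂ) = 4 * (star x ⬝ᵥ M *ᵥ y) := by
  have h1 : star y ⬝ᵥ M *ᵥ x = star (star x ⬝ᵥ M *ᵥ y) := by
    rw [← star_dotProduct_star, star_star, star_mulVec, hM, ← dotProduct_mulVec]
  have h2 : ∀ t : ℂ, ‖t‖ = 1 → qf M (x + t • y) =
      qf M x + qf M y + 2 * (t * (star x ⬝ᵥ M *ᵥ y)).re := by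
    intro t ht
    unfold qf
    simp only [mulVec_add, mulVec_smul, star_add, star_smul, add_dotProduct, dotProduct_add,
      smul_dotProduct, dotProduct_smul, smul_eq_mul]
    rw [h1]
    have h3 : t * (star t * (star y ⬝ᵥ M *ᵥ y)) = star y ⬝ᵥ M *ᵥ y := by
      rw [← mul_assoc, RCLike.star_def, Complex.mul_conj', ht]
      simp
    rw [mul_add, h3]
    simp only [Complex.add_re, Complex.mul_re, RCLike.star_def, Complex.conj_re, Complex.conj_im]
    ring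
  simp only [Fin.sum_univ_four]
  rw [h2 _ (norm_ph 0), h2 _ (norm_ph 1), h2 _ (norm_ph 2), h2 _ (norm_ph 3)]
  set z := star x ⬝ᵥ M *ᵥ y
  simp only [ph]
  apply Complex.ext
  · simp; ring
  · simp; ring

end Pool.Agent.NH90.QB
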