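import Pool.Agent.NH90.QB.Moment

open MeasureTheory ProbabilityTheory Matrix
open scoped ENNReal ComplexOrder

namespace Pool.Agent.NH90.QB

variable {d : ℕ}

theorem exists_sqrt {M : Matrix (Fin d) (Fin d) ℂ} (hM : M.PosSemidef) :
    ∃ A : Matrix (Fin d) (Fin d) ℂ, M = Aᴴ * A := by
  open scoped MatrixOrder in
  obtain ⟨a, ha⟩ := CStarAlgebra.nonneg_iff_eq_star_mul_self.mp hM.nonneg
  exact ⟨a, ha⟩

theorem continuous_qf (M : Matrix (Fin d) (Fin d) ℂ) :
    Continuous (fun v : EuclideanSpace ℂ (Fin d) => qf M (fun i => v i)) := by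
  unfold qf
  apply Complex.continuous_re.comp
  simp only [dotProduct, mulVec]
  fun_prop

theorem exists_top (hd : 0 < d) (M : Matrix (Fin d) (Fin d) ℂ) :
    ∃ u : Fin d → ℂ, nrm u = 1 ∧ ∀ v, qf M v ≤ qf M u * nrm v ^ 2 := by
  have hne : (Metric.sphere (0 : EuclideanSpace ℂ (Fin d)) 1).Nonempty := by
    refine ⟨WithLp.toLp 2 (Pi.single ⟨0, hd⟩ 1), ?_⟩
    simp
  obtain ⟨u, hu, hmax⟩ := (isCompact_sphere (0 : EuclideanSpace ℂ (Fin d)) 1).exists_isMaxOn hne
    (continuous_qf M).continuousOn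
  have hu1 : nrm (fun i => u i) = 1 := by
    have h1 : ‖u‖ = 1 := by simpa using hu
    exact h1
  refine ⟨fun i => u i, hu1, ?_⟩
  intro v
  by_cases hv : v = 0
  · subst hv
    have h0 : nrm (0 : Fin d → ℂ) = 0 := nrm_eq_zero.2 rfl
    rw [h0]; simp [qf]
  · have hn : nrm v ≠ 0 := fun h => hv (nrm_eq_zero.1 h)
    have hpos : 0 < nrm v := lt_of_le_of_ne (nrm_nonneg v) (Ne.symm hn)
    set w : Fin d → ℂ := ((nrm v : ℂ)⁻¹) • v with hw
    have hnw : nrm w = 1 := by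
      rw [hw, nrm_smul, norm_inv, Complex.norm_real, Real.norm_of_nonneg hpos.le]
      exact inv_mul_cancel₀ hn
    have hmem : (WithLp.toLp 2 w : EuclideanSpace ℂ (Fin d)) ∈ Metric.sphere (0 : EuclideanSpace ℂ (Fin d)) 1 := by
      have : ‖(WithLp.toLp 2 w : EuclideanSpace ℂ (Fin d))‖ = 1 := hnw
      simpa using this
    have h1 : qf M w ≤ qf M (fun i => u i) := hmax hmem
    have h2 : v = ((nrm v : ℂ)) • w := by
      rw [hw, smul_smul, mul_inv_cancel₀ (by exact_mod_cast hn), one_smul]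
    have h3 : qf M v = nrm v ^ 2 * qf M w := by
      conv_lhs => rw [h2]
      rw [qf_smul_vec, Complex.norm_real, Real.norm_of_nonneg hpos.le]
    rw [h3, mul_comm]
    exact mul_le_mul_of_nonneg_right h1 (by positivity)

theorem exists_inv {A : Matrix (Fin d) (Fin d) ℂ} (h : ∀ v, nrm v ≤ nrm (A *ᵥ v)) :
    ∃ B : Matrix (Fin d) (Fin d) ℂ, A * B = 1 := by
  have hinj : Function.Injective A.mulVec := by
    intro x y hxy
    have h1 := h (x - y)
    have h2 : A *ᵥ (x - y) = 0 := by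
      rw [mulVec_sub]
      exact sub_eq_zero.2 hxy
    rw [h2, nrm_eq_zero.2 rfl] at h1
    have h3 := le_antisymm h1 (nrm_nonneg _)
    exact sub_eq_zero.1 (nrm_eq_zero.1 h3)
  have hu := Matrix.mulVec_injective_iff_isUnit.1 hinj
  obtain ⟨U, rfl⟩ := hu
  exact ⟨(U⁻¹ : (Matrix (Fin d) (Fin d) ℂ)ˣ), by simp⟩

/-- the projector on the line of a nonzero vector -/
noncomputable def mkProj (x : Fin d → ℂ) (hx : x ≠ 0) : Proj d :=
  ⟨((nrm x ^ 2 : ℝ) : ℂ)⁻¹ • vecMulVec x (star x), by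
    have hn : nrm x ≠ 0 := fun h => hx (nrm_eq_zero.1 h)
    have hc : ((nrm x ^ 2 : ℝ) : ℂ) ≠ 0 := by exact_mod_cast pow_ne_zero 2 hn
    have hmul : (((nrm x ^ 2 : ℝ) : ℂ)⁻¹ • vecMulVec x (star x)) *ᵥ x = x := by
      rw [smul_mulVec, vecMulVec_mulVec, star_dot_self]
      rw [op_smul_eq_smul, smul_smul, inv_mul_cancel₀ hc, one_smul]
    refine ⟨?_, ?_, ?_⟩
    · rw [Matrix.IsHermitian, conjTranspose_smul, conjTranspose_vecMulVec, star_star]
      congr 1
      rw [star_inv₀]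
      simp
    · rw [Matrix.smul_mul, Matrix.mul_smul, vecMulVec_mul_vecMulVec, star_dot_self, smul_smul]
      rw [show vecMulVec x ((((nrm x ^ 2 : ℝ) : ℂ)) • star x) =
        (((nrm x ^ 2 : ℝ) : ℂ)) • vecMulVec x (star x) from vecMulVec_smul _ _ _, smul_smul]
      congr 1
      field_simp
    · apply le_antisymm
      · have : ((nrm x ^ 2 : ℝ) : ℂ)⁻¹ • vecMulVec x (star x) =
          vecMulVec (((nrm x ^ 2 : ℝ) : ℂ)⁻¹ • x) (star x) := (smul_vecMulVec _ _ _).symm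
        rw [this]
        exact rank_vecMulVec_le _ _
      · rw [Nat.one_le_iff_ne_zero]
        intro h0
        have h1 : Module.finrank ℂ (LinearMap.range
          (((nrm x ^ 2 : ℝ) : ℂ)⁻¹ • vecMulVec x (star x)).mulVecLin) = 0 := h0
        rw [Submodule.finrank_eq_zero] at h1
        rw [LinearMap.range_eq_bot] at h1
        have h2 := congrArg (fun f => f x) h1
        simp only [mulVecLin_apply, LinearMap.zero_apply] at h2
        rw [hmul] at h2
        exact hx h2⟩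

theorem born_mkProj (ρ : State d) (x : Fin d → ℂ) (hx : x ≠ 0) :
    born ρ (mkProj x hx) = qf ρ.mat x / nrm x ^ 2 := by
  unfold born mkProj qf
  simp only
  rw [Matrix.mul_smul, mul_vecMulVec, trace_smul, trace_vecMulVec, smul_eq_mul]
  rw [dotProduct_comm]
  rw [← Complex.ofReal_inv, Complex.re_ofReal_mul]
  field_simp

theorem exists_best (hd : 0 < d) (ρ : State d) : ∃ u : Fin d → ℂ, nrm u = 1 ∧
    qf ρ.mat u = best ρ ∧ ∀ v, qf ρ.mat v ≤ best ρ * nrm v ^ 2 := by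
  obtain ⟨u, hu, hmax⟩ := exists_top hd ρ.mat
  have hu0 : u ≠ 0 := by
    rintro rfl
    rw [nrm_eq_zero.2 rfl] at hu
    exact zero_ne_one hu
  haveI : Nonempty (Proj d) := ⟨mkProj u hu0⟩
  have h1 : qf ρ.mat u = best ρ := by
    apply le_antisymm
    · have h2 := Prog.born_le_best ρ (mkProj u hu0)
      rw [born_mkProj, hu] at h2
      simpa using h2
    · apply ciSup_le
      intro P
      exact born_le_of hmax P
  exact ⟨u, hu, h1, h1 ▸ hmax⟩

/-- suboptimality form -/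
noncomputable def gap (ρ : State d) (v : Fin d → ℂ) : ℝ := best ρ * nrm v ^ 2 - qf ρ.mat v

theorem gap_nonneg (hd : 0 < d) (ρ : State d) (v : Fin d → ℂ) : 0 ≤ gap ρ v := by
  obtain ⟨u, _, _, h⟩ := exists_best hd ρ
  unfold gap
  linarith [h v]

theorem best_le_one (hd : 0 < d) (ρ : State d) : best ρ ≤ 1 := by
  obtain ⟨u, hu, h1, h⟩ := exists_best hd ρ
  have hu0 : u ≠ 0 := by
    rintro rfl
    rw [nrm_eq_zero.2 rfl] at hu
    exact zero_ne_one hu
  have h2 := born_le_one ρ (mkProj u hu0)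
  rw [born_mkProj, hu, h1] at h2
  simpa using h2

theorem gap_le (hd : 0 < d) (ρ : State d) (v : Fin d → ℂ) : gap ρ v ≤ nrm v ^ 2 := by
  unfold gap
  have h1 := qf_nonneg_of_posSemidef ρ.posSemidef v
  have h2 := best_le_one hd ρ
  nlinarith [sq_nonneg (nrm v)]

/-- The state of the algorithm. -/
structure St (d : ℕ) where
  A : Matrix (Fin d) (Fin d) ℂ
  B : Matrix (Fin d) (Fin d) ℂ
  AB : A * B = 1
  u : Fin d → ℂ
  nu : nrm u = 1
  nAu : nrm (A *ᵥ u) = 1
  le : ∀ v, nrm v ≤ nrm (A *ᵥ v)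

theorem St.BA (s : St d) : s.B * s.A = 1 := mul_eq_one_comm.1 s.AB

/-- the estimated density matrix -/
noncomputable def est (s : St d) (R : SA d) : Matrix (Fin d) (Fin d) ℂ := s.Aᴴ * R.1 * s.A

theorem exists_nxt (hd : 0 < d) (s : St d) (R : SA d) {e : ℝ} (he : 0 < e) :
    ∃ s' : St d, (∀ v, qf (est s R) v ≤ qf (est s R) s'.u * nrm v ^ 2) ∧
      ∀ v, e * nrm (s'.A *ᵥ v) ^ 2 =
        e * nrm v ^ 2 + (qf (est s R) s'.u * nrm v ^ 2 - qf (est s R) v) := by
  obtain ⟨u, hu, hmax⟩ := exists_top hd (est s R)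
  set M := est s R with hM
  have hMh : Mᴴ = M := by
    have : R.1ᴴ = R.1 := R.2
    rw [hM, est, conjTranspose_mul, conjTranspose_mul, conjTranspose_conjTranspose, this, mul_assoc]
  set l := qf M u with hl
  set W : Matrix (Fin d) (Fin d) ℂ := ((e : ℝ) : ℂ)⁻¹ • ((((e + l : ℝ) : ℂ)) • 1 - M) with hW
  have hWh : Wᴴ = W := by
    rw [hW, conjTranspose_smul, conjTranspose_sub, conjTranspose_smul, hMh, conjTranspose_one,
      star_inv₀]
    simp
  have hq : ∀ v, qf W v = e⁻¹ * ((e + l) * nrm v ^ 2 - qf M v) := by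
    intro v
    rw [hW, ← Complex.ofReal_inv, qf_rsmul, qf_sub, qf_rsmul, qf_one]
  have hge : ∀ v, nrm v ^ 2 ≤ qf W v := by
    intro v
    rw [hq]
    have h1 := hmax v
    rw [← mul_le_mul_iff_right₀ he, ← mul_assoc, mul_inv_cancel₀ he.ne', one_mul]
    linarith
  obtain ⟨A, hA⟩ := exists_sqrt (posSemidef_of_qf hWh (fun v => (sq_nonneg _).trans (hge v)))
  have hA2 : ∀ v, nrm (A *ᵥ v) ^ 2 = qf W v := by
    intro v; rw [hA, qf_conjSelf]
  have hle : ∀ v, nrm v ≤ nrm (A *ᵥ v) := by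
    intro v
    apply le_of_sq_le_sq _ (nrm_nonneg _)
    rw [hA2]; exact hge v
  obtain ⟨B, hB⟩ := exists_inv hle
  have hAu : nrm (A *ᵥ u) = 1 := by
    have h1 : nrm (A *ᵥ u) ^ 2 = 1 := by
      rw [hA2, hq, hu]
      field_simp
      rw [hl]; ring
    have h2 := nrm_nonneg (A *ᵥ u)
    nlinarith
  refine ⟨⟨A, B, hB, u, hu, hAu, hle⟩, hmax, ?_⟩
  intro v
  simp only
  rw [hA2, hq]
  field_simp
  ring

end Pool.Agent.NH90.QB
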