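import Pool.Agent.NH90.QB.Explore

open MeasureTheory ProbabilityTheory Matrix
open scoped ENNReal ComplexOrder

namespace Pool.Agent.NH90.QB

variable {d : ℕ}

theorem dir_eq (s : St d) (i j : Fin d) (σ : Fin 2) (t : Fin 4) :
    dir s ((i, j), (σ, t)) = (3 : ℂ) • s.u + sg σ • (s.B *ᵥ ee i + ph t • (s.B *ᵥ ee j)) := by
  unfold dir
  simp only [smul_add, smul_smul]

theorem sum_ph : ∑ t : Fin 4, star (ph t) = 0 := by
  simp [Fin.sum_univ_four, ph]

theorem zsum (ρ : State d) (s : St d) (k l : Fin d) :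
    ∑ q : Fin 2 × Fin 4, star (ph q.2) * ((qf ρ.mat (dir s ((k, l), q)) : ℝ) : ℂ) =
      8 * (s.Bᴴ * ρ.mat * s.B) k l := by
  have hρ : ρ.matᴴ = ρ.mat := ρ.posSemidef.1
  rw [Fintype.sum_prod_type, Finset.sum_comm]
  have h1 : ∀ t : Fin 4, ∑ σ : Fin 2,
      star (ph t) * ((qf ρ.mat (dir s ((k, l), (σ, t))) : ℝ) : ℂ) =
      star (ph t) * ((2 * qf ρ.mat ((3 : ℂ) • s.u) : ℝ) : ℂ) +
      2 * (star (ph t) * ((qf ρ.mat (s.B *ᵥ ee k + ph t • (s.B *ᵥ ee l)) : ℝ) : ℂ)) := by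
    intro t
    rw [Fin.sum_univ_two, ← mul_add, ← Complex.ofReal_add, dir_eq, dir_eq]
    have : sg 0 = 1 := rfl
    have h2 : sg 1 = -1 := rfl
    rw [this, h2, one_smul, qf_para]
    push_cast
    ring
  simp only [h1]
  rw [Finset.sum_add_distrib, ← Finset.sum_mul, sum_ph, zero_mul, zero_add, ← Finset.mul_sum,
    polar hρ]
  have h3 : (s.Bᴴ * ρ.mat * s.B) k l = star (s.B *ᵥ ee k) ⬝ᵥ ρ.mat *ᵥ (s.B *ᵥ ee l) := by
    rw [star_mulVec, ← dotProduct_mulVec, mulVec_mulVec, mulVec_mulVec]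
    unfold ee
    rw [Matrix.mulVec_single_one]
    have : star (Pi.single k (1 : ℂ) : Fin d → ℂ) = Pi.single k 1 := by
      funext i
      by_cases h : i = k
      · subst h; simp
      · simp [Pi.single_eq_of_ne h]
    rw [this, single_one_dotProduct]
    rfl
  rw [h3]
  ring

theorem mean_lst (ρ : State d) (s : St d) {N : ℕ} (hN : 0 < N) :
    (mean ρ (lst s N)).1 = s.Bᴴ * ρ.mat * s.B := by
  rw [mean_eq, sum_lst s N (fun x => born ρ x.1 • x.2)]
  have hN' : (N : ℝ) ≠ 0 := by exact_mod_cast hN.ne'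
  have h1 : ∀ a : Ix d × Fin N, born ρ (pr s a.1) • wtN s N a.1 =
      (qf ρ.mat (dir s a.1) / (16 * N)) • wt a.1 := by
    intro a
    rw [pr, born_mkProj, wtN, smul_smul]
    congr 1
    have := dir_ge s a.1
    field_simp
  simp only [h1]
  rw [Fintype.sum_prod_type]
  simp only [Finset.sum_const, Finset.card_univ, Fintype.card_fin]
  have hρ : ρ.matᴴ = ρ.mat := ρ.posSemidef.1
  have hH : (s.Bᴴ * ρ.mat * s.B)ᴴ = s.Bᴴ * ρ.mat * s.B := by
    rw [conjTranspose_mul, conjTranspose_mul, conjTranspose_conjTranspose, hρ, mul_assoc]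
  ext k l
  rw [AddSubgroup.val_finsetSum, Matrix.sum_apply]
  have h2 : ∀ a : Ix d, (N • ((qf ρ.mat (dir s a) / (16 * N)) • wt a) : SA d).1 k l =
      (1 / 16 : ℂ) * ((if a.1.1 = k ∧ a.1.2 = l then
        star (ph a.2.2) * ((qf ρ.mat (dir s a) : ℝ) : ℂ) else 0) +
       (if a.1.2 = k ∧ a.1.1 = l then ph a.2.2 * ((qf ρ.mat (dir s a) : ℝ) : ℂ) else 0)) := by
    intro a
    have e : (N • ((qf ρ.mat (dir s a) / (16 * N)) • wt a) : SA d).1 =
        (((qf ρ.mat (dir s a) / 16 : ℝ)) : ℂ) • (wt a).1 := by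
      rw [← Nat.cast_smul_eq_nsmul ℝ, smul_smul]
      have : (N : ℝ) * (qf ρ.mat (dir s a) / (16 * N)) = qf ρ.mat (dir s a) / 16 := by
        field_simp
      rw [this]
      rfl
    rw [e]
    change (((qf ρ.mat (dir s a) / 16 : ℝ)) : ℂ) * ((single a.1.1 a.1.2 (star (ph a.2.2)) +
      single a.1.2 a.1.1 (ph a.2.2)) k l) = _
    rw [Matrix.add_apply, single_apply, single_apply]
    split_ifs <;> push_cast <;> ring
  simp only [h2]
  rw [← Finset.mul_sum, Finset.sum_add_distrib]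
  have h3 : ∑ a : Ix d, (if a.1.1 = k ∧ a.1.2 = l then
      star (ph a.2.2) * ((qf ρ.mat (dir s a) : ℝ) : ℂ) else 0) = 8 * (s.Bᴴ * ρ.mat * s.B) k l := by
    rw [← zsum, Fintype.sum_prod_type, Finset.sum_eq_single (k, l)]
    · simp
    · intro b _ hb
      apply Finset.sum_eq_zero
      intro q _
      rw [if_neg]
      rintro ⟨h4, h5⟩
      exact hb (Prod.ext h4 h5)
    · simp
  have h4 : ∑ a : Ix d, (if a.1.2 = k ∧ a.1.1 = l then
      ph a.2.2 * ((qf ρ.mat (dir s a) : ℝ) : ℂ) else 0) = 8 * (s.Bᴴ * ρ.mat * s.B) k l := by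
    have h5 : (8 : ℂ) * (s.Bᴴ * ρ.mat * s.B) k l = star (8 * (s.Bᴴ * ρ.mat * s.B) l k) := by
      rw [star_mul', ← conjTranspose_apply, hH]
      simp
    rw [h5, ← zsum, star_sum, Fintype.sum_prod_type, Finset.sum_eq_single (l, k)]
    · apply Finset.sum_congr rfl
      intro q _
      simp
    · intro b _ hb
      apply Finset.sum_eq_zero
      intro q _
      rw [if_neg]
      rintro ⟨h4, h5⟩
      exact hb (Prod.ext h5 h4)
    · simp
  rw [h3, h4]
  ring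

end Pool.Agent.NH90.QB
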