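import Pool.Agent.NH90.QB.Prog

open MeasureTheory ProbabilityTheory Matrix
open scoped ENNReal ComplexOrder

namespace Pool.Agent.NH90.QB

variable {d : ℕ}

/-- Hermitian matrices -/
abbrev SA (d : ℕ) : Type := selfAdjoint (Matrix (Fin d) (Fin d) ℂ)

/-- real inner product of matrices -/
noncomputable def ip (A B : Matrix (Fin d) (Fin d) ℂ) : ℝ := ∑ i, ∑ j, (star (A i j) * B i j).re

/-- squared Frobenius norm -/
noncomputable def frob (A : Matrix (Fin d) (Fin d) ℂ) : ℝ := ip A A

theorem ip_add_left (A B C : Matrix (Fin d) (Fin d) ℂ) : ip (A + B) C = ip A C + ip B C := by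
  unfold ip
  simp only [← Finset.sum_add_distrib]
  apply Finset.sum_congr rfl; intro i _
  apply Finset.sum_congr rfl; intro j _
  simp [add_mul]

theorem ip_comm (A B : Matrix (Fin d) (Fin d) ℂ) : ip A B = ip B A := by
  unfold ip
  apply Finset.sum_congr rfl; intro i _
  apply Finset.sum_congr rfl; intro j _
  simp; ring

theorem ip_add_right (A B C : Matrix (Fin d) (Fin d) ℂ) : ip A (B + C) = ip A B + ip A C := by
  rw [ip_comm, ip_add_left, ip_comm B, ip_comm C]

theorem ip_smul_left (c : ℝ) (A B : Matrix (Fin d) (Fin d) ℂ) : ip (c • A) B = c * ip A B := by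
  unfold ip
  simp only [Finset.mul_sum]
  apply Finset.sum_congr rfl; intro i _
  apply Finset.sum_congr rfl; intro j _
  simp; ring

theorem ip_smul_right (c : ℝ) (A B : Matrix (Fin d) (Fin d) ℂ) : ip A (c • B) = c * ip A B := by
  rw [ip_comm, ip_smul_left, ip_comm]

theorem frob_nonneg (A : Matrix (Fin d) (Fin d) ℂ) : 0 ≤ frob A := by
  unfold frob ip
  apply Finset.sum_nonneg; intro i _
  apply Finset.sum_nonneg; intro j _
  simp
  nlinarith [mul_self_nonneg (A i j).re, mul_self_nonneg (A i j).im]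

theorem frob_eq (A : Matrix (Fin d) (Fin d) ℂ) : frob A = ∑ i, ∑ j, ‖A i j‖ ^ 2 := by
  unfold frob ip
  apply Finset.sum_congr rfl; intro i _
  apply Finset.sum_congr rfl; intro j _
  rw [← Complex.normSq_eq_norm_sq, Complex.normSq_apply]
  simp

theorem frob_add_smul (c : ℝ) (A B : Matrix (Fin d) (Fin d) ℂ) :
    frob (A + c • B) = frob A + 2 * c * ip A B + c ^ 2 * frob B := by
  unfold frob
  rw [ip_add_left, ip_add_right, ip_add_right, ip_smul_left, ip_smul_left, ip_smul_right,
    ip_smul_right, ip_comm B A]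
  ring

theorem frob_add_le (A B : Matrix (Fin d) (Fin d) ℂ) :
    frob (A + B) ≤ 2 * frob A + 2 * frob B := by
  have h1 := frob_add_smul 1 A B
  have h2 := frob_add_smul (-1) A B
  have h3 := frob_nonneg (A + (-1 : ℝ) • B)
  rw [one_smul] at h1
  nlinarith

theorem ip_eq_trace (A B : Matrix (Fin d) (Fin d) ℂ) : ip A B = ((Aᴴ * B).trace).re := by
  unfold ip Matrix.trace
  simp only [diag_apply, mul_apply, conjTranspose_apply]
  rw [Finset.sum_comm, Complex.re_sum]
  apply Finset.sum_congr rfl; intro i _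
  rw [Complex.re_sum]

theorem ip_sq_sq {S K : Matrix (Fin d) (Fin d) ℂ} (hS : Sᴴ = S) (hK : Kᴴ = K) :
    ip (S * S) (K * K) = frob (S * K) := by
  unfold frob
  rw [ip_eq_trace, ip_eq_trace, conjTranspose_mul, conjTranspose_mul, hS, hK]
  congr 1
  rw [Matrix.trace_mul_comm, mul_assoc, Matrix.trace_mul_comm]
  congr 1
  simp only [mul_assoc]

theorem frob_conjTranspose (A : Matrix (Fin d) (Fin d) ℂ) : frob Aᴴ = frob A := by
  rw [frob_eq, frob_eq, Finset.sum_comm]
  apply Finset.sum_congr rfl; intro i _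
  apply Finset.sum_congr rfl; intro j _
  simp

/-- The samples taken along a list of measurements with matrix weights. -/
noncomputable def sample : List (Proj d × SA d) → Prog d (SA d)
  | [] => Prog.ret 0
  | x :: L => Prog.bind (sample L)
      (fun R => Prog.ask x.1 (fun b => Prog.ret (if b then R + x.2 else R)))

/-- mean of the result -/
noncomputable def mean (ρ : State d) : List (Proj d × SA d) → SA d
  | [] => 0
  | x :: L => mean ρ L + born ρ x.1 • x.2

theorem cost_sample (ρ : State d) (L : List (Proj d × SA d)) :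
    Prog.cost ρ (sample L) = (L.map (fun x => best ρ - born ρ x.1)).sum := by
  induction L with
  | nil => rfl
  | cons x L ih =>
    simp only [sample, Prog.cost_bind, ih, Prog.cost, List.map_cons, List.sum_cons]
    rw [Prog.E_const]
    ring

theorem depth_sample (L : List (Proj d × SA d)) : Prog.Depth (sample L) L.length := by
  induction L with
  | nil => rfl
  | cons x L ih =>
    apply Prog.depth_bind ih
    intro R
    exact ⟨0, rfl, fun b => rfl⟩

theorem E_sample_cons (ρ : State d) (x : Proj d × SA d) (L : List (Proj d × SA d))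
    (f : SA d → ℝ) :
    Prog.E ρ (sample (x :: L)) (fun R => f (R - mean ρ (x :: L))) =
      Prog.E ρ (sample L) (fun R =>
        born ρ x.1 * f ((R - mean ρ L) + (1 - born ρ x.1) • x.2) +
        (1 - born ρ x.1) * f ((R - mean ρ L) + (-born ρ x.1) • x.2)) := by
  simp only [sample, Prog.E_bind, Prog.E, mean]
  congr 1
  funext R
  simp only [if_true, Bool.false_eq_true, if_false]
  congr 3
  · rw [sub_smul, one_smul]; abel
  · rw [neg_smul]; abel

theorem E_lin (ρ : State d) (L : List (Proj d × SA d)) (l : SA d →ₗ[ℝ] ℝ) :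
    Prog.E ρ (sample L) (fun R => l (R - mean ρ L)) = 0 := by
  induction L with
  | nil => simp [sample, mean, Prog.E]
  | cons x L ih =>
    rw [E_sample_cons ρ x L (fun S => l S)]
    rw [← ih]
    congr 1
    funext R
    rw [map_add, map_add, map_smul, map_smul]
    simp only [smul_eq_mul]
    ring

theorem E_frob_mul (ρ : State d) (L : List (Proj d × SA d)) (G : Matrix (Fin d) (Fin d) ℂ) :
    Prog.E ρ (sample L) (fun R => frob ((R - mean ρ L).1 * G)) ≤
      1 / 4 * (L.map (fun x => frob (x.2.1 * G))).sum := by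
  induction L with
  | nil => simp [sample, mean, Prog.E, frob, ip]
  | cons x L ih =>
    rw [E_sample_cons ρ x L (fun S => frob (S.1 * G))]
    have h1 : ∀ R : SA d, born ρ x.1 * frob (((R - mean ρ L) + (1 - born ρ x.1) • x.2).1 * G) +
        (1 - born ρ x.1) * frob (((R - mean ρ L) + (-born ρ x.1) • x.2).1 * G) =
        frob ((R - mean ρ L).1 * G) + (born ρ x.1 * (1 - born ρ x.1)) * frob (x.2.1 * G) := by
      intro R
      have e1 : ∀ c : ℝ, ((R - mean ρ L) + c • x.2).1 * G =
          (R - mean ρ L).1 * G + c • (x.2.1 * G) := by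
        intro c
        rw [← Matrix.smul_mul, ← Matrix.add_mul]
        rfl
      rw [e1, e1, frob_add_smul, frob_add_smul]
      ring
    simp only [h1]
    rw [Prog.E_add, Prog.E_const, List.map_cons, List.sum_cons]
    have h2 := frob_nonneg (x.2.1 * G)
    have h3 : born ρ x.1 * (1 - born ρ x.1) ≤ 1 / 4 := by nlinarith [sq_nonneg (born ρ x.1 - 1 / 2)]
    nlinarith [mul_le_mul_of_nonneg_right h3 h2]

/-- the sum of all squared Frobenius norms of products -/
noncomputable def QQ (L : List (Proj d × SA d)) : ℝ :=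
  (L.map (fun x => (L.map (fun y => frob (y.2.1 * x.2.1))).sum)).sum

theorem QQ_cons (x : Proj d × SA d) (L : List (Proj d × SA d)) :
    QQ L + (L.map (fun y => frob (y.2.1 * x.2.1))).sum + frob (x.2.1 * x.2.1) ≤ QQ (x :: L) := by
  unfold QQ
  simp only [List.map_cons, List.sum_cons]
  have h : (L.map (fun z => (L.map (fun y => frob (y.2.1 * z.2.1))).sum)).sum ≤
      (L.map (fun z => frob (x.2.1 * z.2.1) + (L.map (fun y => frob (y.2.1 * z.2.1))).sum)).sum := by
    apply List.sum_le_sum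
    intro z _
    linarith [frob_nonneg (x.2.1 * z.2.1)]
  linarith

theorem linT (K G : Matrix (Fin d) (Fin d) ℂ) :
    ∃ l : SA d →ₗ[ℝ] ℝ, ∀ S : SA d, l S = ip (S.1 * K + K * S.1) G := by
  refine ⟨{ toFun := fun S => ip (S.1 * K + K * S.1) G, map_add' := ?_, map_smul' := ?_ },
    fun S => rfl⟩
  · intro S T
    rw [← ip_add_left]
    congr 1
    change (S.1 + T.1) * K + K * (S.1 + T.1) = _
    rw [add_mul, mul_add]
    abel
  · intro c S
    simp only [RingHom.id_apply, smul_eq_mul]
    rw [← ip_smul_left]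
    congr 1
    change (c • S.1) * K + K * (c • S.1) = _
    rw [Matrix.smul_mul, Matrix.mul_smul, smul_add]

theorem E_frob_sq (ρ : State d) (L : List (Proj d × SA d)) :
    Prog.E ρ (sample L) (fun R => frob ((R - mean ρ L).1 * (R - mean ρ L).1)) ≤ QQ L := by
  induction L with
  | nil => simp [sample, mean, Prog.E, frob, ip, QQ]
  | cons x L ih =>
    rw [E_sample_cons ρ x L (fun S => frob (S.1 * S.1))]
    set p := born ρ x.1 with hp
    set K := x.2.1 with hK
    have hKs : Kᴴ = K := x.2.2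
    obtain ⟨l, hl⟩ := linT K (K * K)
    have hp0 : 0 ≤ p := born_nonneg ρ x.1
    have hp1 : p ≤ 1 := born_le_one ρ x.1
    have h1 : ∀ R : SA d, p * frob (((R - mean ρ L) + (1 - p) • x.2).1 *
          ((R - mean ρ L) + (1 - p) • x.2).1) +
        (1 - p) * frob (((R - mean ρ L) + (-p) • x.2).1 * ((R - mean ρ L) + (-p) • x.2).1) ≤
        (frob ((R - mean ρ L).1 * (R - mean ρ L).1) + (6 / 4) * frob ((R - mean ρ L).1 * K)) +
         ((2 * (p * (1 - p) * (1 - 2 * p))) * l (R - mean ρ L) + 1 / 4 * frob (K * K)) := by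
      intro R
      set S := (R - mean ρ L).1 with hS
      have hSs : Sᴴ = S := (R - mean ρ L).2
      have e1 : ∀ c : ℝ, ((R - mean ρ L) + c • x.2).1 * ((R - mean ρ L) + c • x.2).1 =
          S * S + c • ((S * K + K * S) + c • (K * K)) := by
        intro c
        change (S + c • K) * (S + c • K) = _
        rw [add_mul, mul_add, mul_add, Matrix.smul_mul, Matrix.mul_smul, Matrix.smul_mul,
          Matrix.mul_smul, smul_add, smul_add]
        abel
      have e3 : ∀ c : ℝ, ip (S * S) ((S * K + K * S) + c • (K * K)) =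
          ip (S * S) (S * K + K * S) + c * ip (S * S) (K * K) := by
        intro c
        rw [ip_add_right (S * S) (S * K + K * S), ip_smul_right]
      rw [e1, e1, frob_add_smul, frob_add_smul, frob_add_smul, frob_add_smul, e3, e3]
      rw [hl]
      have h2 := ip_sq_sq hSs hKs
      have h3 : frob (S * K + K * S) ≤ 4 * frob (S * K) := by
        have := frob_add_le (S * K) (K * S)
        have h4 : frob (K * S) = frob (S * K) := by
          rw [← frob_conjTranspose (S * K), conjTranspose_mul, hSs, hKs]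
        linarith
      have h5 := frob_nonneg (S * K)
      have h6 := frob_nonneg (K * K)
      have hv : p * (1 - p) ≤ 1 / 4 := by nlinarith [sq_nonneg (p - 1 / 2)]
      have hv0 : 0 ≤ p * (1 - p) := mul_nonneg hp0 (by linarith)
      have h7 : p * (1 - p) * frob (S * K + K * S) ≤ p * (1 - p) * (4 * frob (S * K)) :=
        mul_le_mul_of_nonneg_left h3 hv0
      have h8 : p * (1 - p) * frob (S * K) ≤ 1 / 4 * frob (S * K) :=
        mul_le_mul_of_nonneg_right hv h5
      have h9 : p * (1 - p) * ((1 - p) ^ 3 + p ^ 3) ≤ 1 / 4 := by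
        have : (1 - p) ^ 3 + p ^ 3 ≤ 1 := by nlinarith
        have h0 : 0 ≤ (1 - p) ^ 3 + p ^ 3 := by
          have := pow_nonneg (sub_nonneg.2 hp1) 3
          have := pow_nonneg hp0 3
          linarith
        nlinarith
      have h10 : p * (1 - p) * ((1 - p) ^ 3 + p ^ 3) * frob (K * K) ≤ 1 / 4 * frob (K * K) :=
        mul_le_mul_of_nonneg_right h9 h6
      have e2 : p * (frob (S * S) + 2 * (1 - p) * (ip (S * S) (S * K + K * S) +
            (1 - p) * ip (S * S) (K * K)) +
            (1 - p) ^ 2 * (frob (S * K + K * S) + 2 * (1 - p) * ip (S * K + K * S) (K * K) +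
            (1 - p) ^ 2 * frob (K * K))) +
          (1 - p) * (frob (S * S) + 2 * (-p) * (ip (S * S) (S * K + K * S) +
            (-p) * ip (S * S) (K * K)) +
            (-p) ^ 2 * (frob (S * K + K * S) + 2 * (-p) * ip (S * K + K * S) (K * K) +
            (-p) ^ 2 * frob (K * K))) =
          frob (S * S) + p * (1 - p) * (2 * ip (S * S) (K * K)) +
            p * (1 - p) * frob (S * K + K * S) +
            2 * (p * (1 - p) * (1 - 2 * p)) * ip (S * K + K * S) (K * K) +
            p * (1 - p) * ((1 - p) ^ 3 + p ^ 3) * frob (K * K) := by ring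
      rw [e2, h2]
      linarith
    refine (Prog.E_mono ρ _ h1).trans ?_
    rw [Prog.E_add, Prog.E_add, Prog.E_add, Prog.E_smul, Prog.E_smul, Prog.E_const, E_lin]
    have h11 := E_frob_mul ρ L K
    have h12 := QQ_cons x L
    have h13 : 0 ≤ (L.map (fun y => frob (y.2.1 * K))).sum := by
      apply List.sum_nonneg
      intro z hz
      rw [List.mem_map] at hz
      obtain ⟨y, _, rfl⟩ := hz
      exact frob_nonneg _
    have h14 := frob_nonneg (K * K)
    rw [← hK] at h12
    linarith

theorem QQ_le (L : List (Proj d × SA d)) {w : ℝ} (hw : 0 ≤ w)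
    (h : ∀ v : Fin d → ℂ, (L.map (fun x => nrm (x.2.1 *ᵥ v) ^ 2)).sum ≤ w * nrm v ^ 2) :
    QQ L ≤ w ^ 2 * d := by
  have h1 : ∀ G : Matrix (Fin d) (Fin d) ℂ, frob G = ∑ j, nrm (fun i => G i j) ^ 2 := by
    intro G
    rw [frob_eq, Finset.sum_comm]
    apply Finset.sum_congr rfl; intro j _
    rw [nrm_sq]
  have h2 : ∀ G : Matrix (Fin d) (Fin d) ℂ,
      (L.map (fun x => frob (x.2.1 * G))).sum ≤ w * frob G := by
    intro G
    have e : (fun x : Proj d × SA d => frob (x.2.1 * G)) =
        fun x => ∑ j, nrm (x.2.1 *ᵥ (fun i => G i j)) ^ 2 := by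
      funext x
      rw [h1]
      rfl
    rw [e]
    have e2 : (L.map (fun x : Proj d × SA d => ∑ j, nrm (x.2.1 *ᵥ (fun i => G i j)) ^ 2)).sum =
        ∑ j, (L.map (fun x : Proj d × SA d => nrm (x.2.1 *ᵥ (fun i => G i j)) ^ 2)).sum := by
      clear h e
      induction L with
      | nil => simp
      | cons x L ih => simp only [List.map_cons, List.sum_cons, Finset.sum_add_distrib, ih]
    rw [e2, h1 G, Finset.mul_sum]
    exact Finset.sum_le_sum fun j _ => h _
  have h3 : QQ L ≤ (L.map (fun x => w * frob x.2.1)).sum := by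
    unfold QQ
    apply List.sum_le_sum
    intro x _
    exact h2 x.2.1
  have h4 := h2 1
  simp only [mul_one] at h4
  have h5 : frob (1 : Matrix (Fin d) (Fin d) ℂ) = d := by
    rw [frob_eq]
    have : ∀ i : Fin d, ∑ j, ‖(1 : Matrix (Fin d) (Fin d) ℂ) i j‖ ^ 2 = 1 := by
      intro i
      rw [Finset.sum_eq_single i]
      · simp
      · intro j _ hj
        rw [one_apply_ne hj.symm]; simp
      · simp
    simp [this]
  rw [List.sum_map_mul_left] at h3
  rw [h5] at h4
  calc QQ L ≤ w * (L.map (fun x => frob x.2.1)).sum := h3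
    _ ≤ w * (w * d) := mul_le_mul_of_nonneg_left h4 hw
    _ = w ^ 2 * d := by ring

theorem nrm_mulVec_sq_le (G : Matrix (Fin d) (Fin d) ℂ) (v : Fin d → ℂ) :
    nrm (G *ᵥ v) ^ 2 ≤ frob G * nrm v ^ 2 := by
  rw [nrm_sq, frob_eq, Finset.sum_mul]
  apply Finset.sum_le_sum
  intro i _
  have h1 : G *ᵥ v = fun i => star (star (G i)) ⬝ᵥ v := by
    funext i
    rw [star_star]
    rfl
  rw [h1]
  have h2 := norm_dot_le (star (G i)) v
  have h3 : nrm (star (G i)) ^ 2 = ∑ j, ‖G i j‖ ^ 2 := by
    rw [nrm_sq]; simp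
  calc ‖star (star (G i)) ⬝ᵥ v‖ ^ 2 ≤ (nrm (star (G i)) * nrm v) ^ 2 := by
        apply pow_le_pow_left₀ (norm_nonneg _) h2
    _ = (∑ j, ‖G i j‖ ^ 2) * nrm v ^ 2 := by rw [mul_pow, h3]

theorem abs_qf_pow_le (S : SA d) (v : Fin d → ℂ) {κ : ℝ} (hκ : 0 ≤ κ)
    (h : frob (S.1 * S.1) ≤ κ ^ 4) : |qf S.1 v| ≤ κ * nrm v ^ 2 := by
  have h1 := abs_qf_le S.1 v
  have h2 : nrm (S.1 *ᵥ v) ^ 2 = qf (S.1 * S.1) v := by
    have : S.1ᴴ = S.1 := S.2
    rw [← qf_conjSelf, this]
  have h3 : nrm (S.1 *ᵥ v) ^ 2 ≤ nrm v * nrm ((S.1 * S.1) *ᵥ v) := by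
    rw [h2]; exact (le_abs_self _).trans (abs_qf_le _ _)
  have h4 := nrm_mulVec_sq_le (S.1 * S.1) v
  have hv := nrm_nonneg v
  have h5 : nrm ((S.1 * S.1) *ᵥ v) ≤ κ ^ 2 * nrm v := by
    apply le_of_sq_le_sq _ (by positivity)
    calc nrm ((S.1 * S.1) *ᵥ v) ^ 2 ≤ frob (S.1 * S.1) * nrm v ^ 2 := h4
      _ ≤ κ ^ 4 * nrm v ^ 2 := mul_le_mul_of_nonneg_right h (by positivity)
      _ = (κ ^ 2 * nrm v) ^ 2 := by ring
  have h6 : nrm (S.1 *ᵥ v) ≤ κ * nrm v := by
    apply le_of_sq_le_sq _ (by positivity)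
    calc nrm (S.1 *ᵥ v) ^ 2 ≤ nrm v * nrm ((S.1 * S.1) *ᵥ v) := h3
      _ ≤ nrm v * (κ ^ 2 * nrm v) := mul_le_mul_of_nonneg_left h5 hv
      _ = (κ * nrm v) ^ 2 := by ring
  calc |qf S.1 v| ≤ nrm v * nrm (S.1 *ᵥ v) := h1
    _ ≤ nrm v * (κ * nrm v) := mul_le_mul_of_nonneg_left h6 hv
    _ = κ * nrm v ^ 2 := by ring

end Pool.Agent.NH90.QB
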