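import Pool.Agent.NH90.QB.Mean

open MeasureTheory ProbabilityTheory Matrix
open scoped ENNReal ComplexOrder

namespace Pool.Agent.NH90.QB

variable {d : ℕ}

/-- the invariant -/
def Good (ρ : State d) (e : ℝ) (s : St d) : Prop :=
  ∀ v, 4 / 5 * (e * nrm v ^ 2 + gap ρ v) ≤ e * nrm (s.A *ᵥ v) ^ 2 ∧
    e * nrm (s.A *ᵥ v) ^ 2 ≤ 6 / 5 * (e * nrm v ^ 2 + gap ρ v)

open Classical in
/-- the next state of the algorithm -/
noncomputable def update (hd : 0 < d) (s : St d) (R : SA d) (e : ℝ) : St d :=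
  if he : 0 < e then
    (if ∀ v, 2 / 3 * nrm (s.A *ᵥ v) ^ 2 ≤ nrm ((exists_nxt hd s R he).choose.A *ᵥ v) ^ 2 then
      (exists_nxt hd s R he).choose else s)
  else s

theorem update_ge (hd : 0 < d) (s : St d) (R : SA d) (e : ℝ) (v : Fin d → ℂ) :
    2 / 3 * nrm (s.A *ᵥ v) ^ 2 ≤ nrm ((update hd s R e).A *ᵥ v) ^ 2 := by
  unfold update
  split_ifs with h1 h2
  · exact h2 v
  · nlinarith [sq_nonneg (nrm (s.A *ᵥ v))]
  · nlinarith [sq_nonneg (nrm (s.A *ᵥ v))]

theorem good_gap {ρ : State d} {e : ℝ} {s : St d} (he : 0 < e) (h : Good ρ e s) (v : Fin d → ℂ) :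
    gap ρ v ≤ 5 / 4 * e * nrm (s.A *ᵥ v) ^ 2 := by
  have h1 := (h v).1
  have h2 : 0 ≤ e * nrm v ^ 2 := by positivity
  linarith

theorem good_update (hd : 0 < d) {ρ : State d} {e : ℝ} {s : St d} (he : 0 < e) (h : Good ρ e s)
    {N : ℕ} (hN : 0 < N) (R : SA d)
    (hR : frob ((R - mean ρ (lst s N)).1 * (R - mean ρ (lst s N)).1) ≤ (e / 96) ^ 4) :
    Good ρ (e / 8) (update hd s R (e / 8)) := by
  have he8 : 0 < e / 8 := by positivity
  obtain ⟨h1, h2⟩ := (exists_nxt hd s R he8).choose_spec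
  set s' := (exists_nxt hd s R he8).choose with hs'
  -- the error of the estimate
  have herr : ∀ v, |qf (est s R) v - qf ρ.mat v| ≤ 1 / 80 * (e * nrm v ^ 2 + gap ρ v) := by
    intro v
    have h3 := abs_qf_pow_le (R - mean ρ (lst s N)) (s.A *ᵥ v) (by positivity) hR
    have h4 : qf (R - mean ρ (lst s N)).1 (s.A *ᵥ v) = qf (est s R) v - qf ρ.mat v := by
      have e1 : (R - mean ρ (lst s N)).1 = R.1 - (mean ρ (lst s N)).1 := rfl
      rw [e1, mean_lst ρ s hN, qf_sub, qf_conj s.B ρ.mat, est, qf_conj s.A R.1, mulVec_mulVec,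
        s.BA, one_mulVec]
    rw [h4] at h3
    have h5 := (h v).2
    calc _ ≤ e / 96 * nrm (s.A *ᵥ v) ^ 2 := h3
      _ = 1 / 96 * (e * nrm (s.A *ᵥ v) ^ 2) := by ring
      _ ≤ 1 / 96 * (6 / 5 * (e * nrm v ^ 2 + gap ρ v)) := by linarith
      _ = _ := by ring
  -- the top value
  obtain ⟨w, hw, hw1, hw2⟩ := exists_best hd ρ
  have hgapw : gap ρ w = 0 := by
    unfold gap; rw [hw, hw1]; ring
  have hlow : best ρ - e / 80 ≤ qf (est s R) s'.u := by
    have h3 := h1 w
    rw [hw] at h3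
    have h4 := (abs_le.1 (herr w)).1
    rw [hgapw, hw, hw1] at h4
    linarith
  have hup : qf (est s R) s'.u ≤ best ρ + e / 80 := by
    have h4 := (abs_le.1 (herr s'.u)).2
    have h5 : qf ρ.mat s'.u = best ρ - gap ρ s'.u := by
      unfold gap; rw [s'.nu]; ring
    have h6 := gap_nonneg hd ρ s'.u
    rw [s'.nu, h5] at h4
    linarith
  have hgood : Good ρ (e / 8) s' := by
    intro v
    have h3 := h2 v
    have h4 := abs_le.1 (herr v)
    have h5 : qf ρ.mat v = best ρ * nrm v ^ 2 - gap ρ v := by unfold gap; ring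
    rw [h5] at h4
    have h6 := gap_nonneg hd ρ v
    have h7 : 0 ≤ nrm v ^ 2 := sq_nonneg _
    have h8 : (best ρ - e / 80) * nrm v ^ 2 ≤ qf (est s R) s'.u * nrm v ^ 2 :=
      mul_le_mul_of_nonneg_right hlow h7
    have h9 : qf (est s R) s'.u * nrm v ^ 2 ≤ (best ρ + e / 80) * nrm v ^ 2 :=
      mul_le_mul_of_nonneg_right hup h7
    have h10 : 0 ≤ e * nrm v ^ 2 := by positivity
    rw [h3]
    constructor
    · linarith [h4.1, h4.2]
    · linarith [h4.1, h4.2]
  have hacc : ∀ v, 2 / 3 * nrm (s.A *ᵥ v) ^ 2 ≤ nrm (s'.A *ᵥ v) ^ 2 := by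
    intro v
    have h3 := (hgood v).1
    have h4 := (h v).2
    have h5 := gap_nonneg hd ρ v
    have h6 : e * (2 / 3 * nrm (s.A *ᵥ v) ^ 2) ≤ e * nrm (s'.A *ᵥ v) ^ 2 := by
      have : 0 ≤ e * nrm v ^ 2 := by positivity
      linarith
    exact le_of_mul_le_mul_left h6 he
  unfold update
  rw [dif_pos he8, if_pos hacc]
  exact hgood

/-- number of repetitions in phase `k` -/
def reps (M k : ℕ) : ℕ := M * 16 ^ k

/-- accuracy before phase `k` -/
noncomputable def acc (k : ℕ) : ℝ := 4 / 8 ^ k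

theorem acc_pos (k : ℕ) : 0 < acc k := by unfold acc; positivity

theorem acc_succ (k : ℕ) : acc (k + 1) = acc k / 8 := by unfold acc; rw [pow_succ]; field_simp

/-- The algorithm: `j` phases, the first of which is number `k`. -/
noncomputable def phases (hd : 0 < d) (M : ℕ) : (j : ℕ) → (k : ℕ) → St d → Prog d Unit
  | 0, _, _ => Prog.ret ()
  | j + 1, k, s => Prog.bind (sample (lst s (reps M k)))
      (fun R => phases hd M j (k + 1) (update hd s R (acc (k + 1))))

/-- number of rounds in phase `k` -/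
def rounds (d M k : ℕ) : ℕ := 8 * d ^ 2 * reps M k

theorem depth_phases (hd : 0 < d) (M : ℕ) (j k : ℕ) (s : St d) :
    Prog.Depth (phases hd M j k s) (∑ i ∈ Finset.range j, rounds d M (k + i)) := by
  induction j generalizing k s with
  | zero => rfl
  | succ j ih =>
    have hsum : ∑ i ∈ Finset.range (j + 1), rounds d M (k + i) =
        rounds d M k + ∑ i ∈ Finset.range j, rounds d M (k + (i + 1)) := by
      rw [Finset.sum_range_succ', Nat.add_comm, add_zero]
    rw [hsum]
    simp only [phases]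
    apply Prog.depth_bind
    · have := depth_sample (lst s (reps M k))
      rw [lst_length] at this
      exact this
    · intro R
      have := ih (k + 1) (update hd s R (acc (k + 1)))
      have e : ∀ i, k + 1 + i = k + (i + 1) := fun i => by ring
      simp only [e] at this
      exact this

theorem cost_phases (hd : 0 < d) (ρ : State d) (M : ℕ) (j k : ℕ) (s : St d) {g : ℝ} (hg : 0 ≤ g)
    (h : ∀ v, gap ρ v ≤ g * nrm (s.A *ᵥ v) ^ 2) :
    Prog.cost ρ (phases hd M j k s) ≤ 25 * g * (rounds d M k : ℝ) * (24 ^ j - 1) := by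
  induction j generalizing k s g with
  | zero => simp [phases, Prog.cost]
  | succ j ih =>
    simp only [phases, Prog.cost_bind]
    have h1 := cost_explore ρ s (reps M k) hg h
    have h2 : ∀ R : SA d, Prog.cost ρ (phases hd M j (k + 1) (update hd s R (acc (k + 1)))) ≤
        25 * (3 / 2 * g) * (rounds d M (k + 1) : ℝ) * (24 ^ j - 1) := by
      intro R
      apply ih
      · positivity
      · intro v
        have h3 := update_ge hd s R (acc (k + 1)) v
        have h4 := h v
        have h5 := mul_le_mul_of_nonneg_left h3 hg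
        linarith
    have h3 := Prog.E_mono ρ (sample (lst s (reps M k))) h2
    rw [Prog.E_const] at h3
    have e1 : (rounds d M (k + 1) : ℝ) = 16 * rounds d M k := by
      unfold rounds reps; push_cast; ring
    have e2 : (8 * (d : ℝ) ^ 2 * (reps M k : ℝ)) = rounds d M k := by
      unfold rounds; push_cast; ring
    rw [e1] at h3
    rw [e2] at h1
    have h4 : 0 ≤ g * (rounds d M k : ℝ) := by positivity
    calc _ ≤ 25 * g * (rounds d M k : ℝ) +
        25 * (3 / 2 * g) * (16 * (rounds d M k : ℝ)) * (24 ^ j - 1) := add_le_add h1 h3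
      _ = 25 * (g * (rounds d M k : ℝ)) * (24 ^ (j + 1) - 23) := by ring
      _ ≤ 25 * (g * (rounds d M k : ℝ)) * (24 ^ (j + 1) - 1) := by
        apply mul_le_mul_of_nonneg_left _ (by positivity)
        linarith
      _ = _ := by ring

/-- the ratio constant -/
noncomputable def C0 : ℝ := 79 ^ 2 * 96 ^ 4 / 256

/-- the main constant -/
noncomputable def C1 : ℝ := 32 + 750 * C0

theorem C0_nonneg : 0 ≤ C0 := by unfold C0; positivity

theorem main_bound (hd : 0 < d) (ρ : State d) {M K : ℕ} (hM : 0 < M)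
    (hM2 : (d : ℝ) ^ 3 * 16 ^ K ≤ (M : ℝ) ^ 2) (j k : ℕ) (hjk : j + k = K + 1) (s : St d)
    (hs : Good ρ (acc k) s) :
    Prog.cost ρ (phases hd M j k s) ≤ C1 * (32 * d ^ 2 * M * 2 ^ K) * (4 * (1 - (3 / 4) ^ j)) := by
  induction j generalizing k s with
  | zero => simp [phases, Prog.cost]
  | succ j ih =>
    simp only [phases, Prog.cost_bind]
    set X : ℝ := 32 * d ^ 2 * M * 2 ^ K with hX
    have hX0 : 0 ≤ X := by positivity
    set N := reps M k with hNdef
    have hN : 0 < N := by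
      rw [hNdef, reps]; positivity
    have hNr : (0 : ℝ) < N := by exact_mod_cast hN
    set e := acc k with hedef
    have he : 0 < e := acc_pos k
    have hC0 := C0_nonneg
    have hC1 : 0 ≤ C1 := by unfold C1; linarith
    -- cost of the present phase
    have h1 := cost_explore ρ s N (g := 5 / 4 * e) (by positivity) (good_gap he hs)
    -- cost of the remaining phases
    set G : ℝ := C1 * X * (4 * (1 - (3 / 4) ^ j)) with hG
    have hG0 : 0 ≤ G := by
      have : (3 / 4 : ℝ) ^ j ≤ 1 := pow_le_one₀ (by norm_num) (by norm_num)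
      have : 0 ≤ 4 * (1 - (3 / 4 : ℝ) ^ j) := by linarith
      positivity
    set Bad : ℝ := 25 * (3 / 2 * (5 / 4 * e)) * (rounds d M (k + 1) : ℝ) * 24 ^ j with hBad
    have hBad0 : 0 ≤ Bad := by positivity
    have h2 : ∀ R : SA d, Prog.cost ρ (phases hd M j (k + 1) (update hd s R (acc (k + 1)))) ≤
        G + (Bad / (e / 96) ^ 4) *
          frob ((R - mean ρ (lst s N)).1 * (R - mean ρ (lst s N)).1) := by
      intro R
      have hf := frob_nonneg ((R - mean ρ (lst s N)).1 * (R - mean ρ (lst s N)).1)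
      by_cases hR : frob ((R - mean ρ (lst s N)).1 * (R - mean ρ (lst s N)).1) ≤ (e / 96) ^ 4
      · have h3 := good_update hd he hs hN R hR
        rw [hedef, ← acc_succ] at h3
        have h4 := ih (k + 1) (by omega) _ h3
        have h5 : 0 ≤ (Bad / (e / 96) ^ 4) *
          frob ((R - mean ρ (lst s N)).1 * (R - mean ρ (lst s N)).1) := by positivity
        linarith
      · rw [not_le] at hR
        have h3 : Prog.cost ρ (phases hd M j (k + 1) (update hd s R (acc (k + 1)))) ≤
            25 * (3 / 2 * (5 / 4 * e)) * (rounds d M (k + 1) : ℝ) * (24 ^ j - 1) := by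
          apply cost_phases hd ρ M j (k + 1) _ (by positivity)
          intro v
          have h3 := update_ge hd s R (acc (k + 1)) v
          have h4 := good_gap he hs v
          have h5 := mul_le_mul_of_nonneg_left h3 he.le
          linarith
        have h4 : 25 * (3 / 2 * (5 / 4 * e)) * (rounds d M (k + 1) : ℝ) * (24 ^ j - 1) ≤ Bad := by
          rw [hBad]
          apply mul_le_mul_of_nonneg_left _ (by positivity)
          linarith
        have h5 : Bad ≤ (Bad / (e / 96) ^ 4) *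
            frob ((R - mean ρ (lst s N)).1 * (R - mean ρ (lst s N)).1) := by
          rw [div_mul_eq_mul_div, le_div_iff₀ (by positivity)]
          exact mul_le_mul_of_nonneg_left hR.le hBad0
        linarith
    have h3 := Prog.E_mono ρ (sample (lst s N)) h2
    rw [Prog.E_add, Prog.E_const, Prog.E_smul] at h3
    have h4 := E_frob_sq ρ (lst s N)
    have h5 : QQ (lst s N) ≤ (79 * d / N) ^ 2 * d :=
      QQ_le (lst s N) (by positivity) (weight_bound s hN)
    have h6 : (Bad / (e / 96) ^ 4) * Prog.E ρ (sample (lst s N))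
        (fun R => frob ((R - mean ρ (lst s N)).1 * (R - mean ρ (lst s N)).1)) ≤
        (Bad / (e / 96) ^ 4) * ((79 * d / N) ^ 2 * d) :=
      mul_le_mul_of_nonneg_left (h4.trans h5) (by positivity)
    -- numerics
    have hKk : K = j + k := by omega
    have ek : e = 4 / 8 ^ k := rfl
    have eN : (N : ℝ) = M * 16 ^ k := by rw [hNdef, reps]; push_cast; ring
    have e1 : e * (8 * d ^ 2 * N) = X / 2 ^ j := by
      rw [ek, eN, hX, hKk]
      have : (16 : ℝ) ^ k = 8 ^ k * 2 ^ k := by rw [← mul_pow]; norm_num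
      rw [this, pow_add]
      field_simp
      ring
    have e2 : (rounds d M (k + 1) : ℝ) = 16 * (8 * d ^ 2 * N) := by
      rw [eN]; unfold rounds reps; push_cast; ring
    have hBad2 : Bad = 750 * (X / 2 ^ j) * 24 ^ j := by
      rw [← e1, hBad, e2]; ring
    have h7 : ((79 * d / N) ^ 2 * d) / (e / 96) ^ 4 ≤ C0 / 16 ^ j := by
      have hMpos : (0 : ℝ) < M := by exact_mod_cast hM
      rw [ek, eN, C0, div_le_div_iff₀ (by positivity) (by positivity)]
      have e3 : (4 / 8 ^ k / 96 : ℝ) ^ 4 = 256 / 96 ^ 4 / 4096 ^ k := by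
        rw [div_pow, div_pow, ← pow_mul, mul_comm k 4, pow_mul]
        norm_num
        ring
      have e4 : (79 * (d : ℝ) / (M * 16 ^ k)) ^ 2 * d = 79 ^ 2 * d ^ 3 / (M ^ 2 * 256 ^ k) := by
        rw [div_pow, mul_pow, mul_pow, ← pow_mul, mul_comm k 2, pow_mul]
        norm_num
        ring
      rw [e3, e4]
      have e5 : (16 : ℝ) ^ K = 16 ^ j * 16 ^ k := by rw [hKk, pow_add]
      rw [e5] at hM2
      have e6 : (4096 : ℝ) ^ k = 16 ^ k * 256 ^ k := by rw [← mul_pow]; norm_num
      have h8 : (d : ℝ) ^ 3 * 16 ^ j / M ^ 2 ≤ 1 / 16 ^ k := by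
        rw [div_le_div_iff₀ (by positivity) (by positivity)]
        nlinarith
      calc 79 ^ 2 * (d : ℝ) ^ 3 / (M ^ 2 * 256 ^ k) * 16 ^ j
          = 79 ^ 2 / 256 ^ k * ((d : ℝ) ^ 3 * 16 ^ j / M ^ 2) := by field_simp
        _ ≤ 79 ^ 2 / 256 ^ k * (1 / 16 ^ k) := mul_le_mul_of_nonneg_left h8 (by positivity)
        _ = 79 ^ 2 * 96 ^ 4 / 256 * (256 / 96 ^ 4 / 4096 ^ k) := by
          rw [e6]; field_simp
    have h9 : (Bad / (e / 96) ^ 4) * ((79 * d / N) ^ 2 * d) ≤ Bad * (C0 / 16 ^ j) := by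
      calc _ = Bad * (((79 * d / N) ^ 2 * d) / (e / 96) ^ 4) := by ring
        _ ≤ _ := mul_le_mul_of_nonneg_left h7 hBad0
    have h10 : Bad * (C0 / 16 ^ j) = 750 * C0 * X * (3 / 4) ^ j := by
      rw [hBad2]
      have : (24 : ℝ) ^ j = (3 / 4) ^ j * (2 ^ j * 16 ^ j) := by
        rw [← mul_pow, ← mul_pow]; norm_num
      rw [this]
      field_simp
    have h11 : 25 * (5 / 4 * e) * (8 * d ^ 2 * N) ≤ 32 * X * (3 / 4) ^ j := by
      have h12 : 25 * (5 / 4 * e) * (8 * d ^ 2 * N) = 125 / 4 * (X / 2 ^ j) := by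
        rw [← e1]; ring
      rw [h12]
      have h13 : (1 / 2 : ℝ) ^ j ≤ (3 / 4) ^ j := pow_le_pow_left₀ (by norm_num) (by norm_num) j
      have h14 : X / 2 ^ j = X * (1 / 2) ^ j := by
        rw [one_div, inv_pow]; rfl
      rw [h14]
      have h15 : X * (1 / 2) ^ j ≤ X * (3 / 4) ^ j := mul_le_mul_of_nonneg_left h13 hX0
      have h16 : 0 ≤ X * (3 / 4 : ℝ) ^ j := by positivity
      linarith
    have hfin : C1 * X * (4 * (1 - (3 / 4) ^ (j + 1))) = G + (32 + 750 * C0) * X * (3 / 4) ^ j := by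
      rw [hG, C1, pow_succ]; ring
    rw [hfin]
    linarith

/-- the initial state -/
noncomputable def st0 (hd : 0 < d) : St d where
  A := 1
  B := 1
  AB := by simp
  u := ee ⟨0, hd⟩
  nu := nrm_ee _
  nAu := by rw [one_mulVec]; exact nrm_ee _
  le := fun v => by rw [one_mulVec]

theorem good_st0 (hd : 0 < d) (ρ : State d) : Good ρ (acc 0) (st0 hd) := by
  intro v
  have h1 := gap_nonneg hd ρ v
  have h2 := gap_le hd ρ v
  have e : acc 0 = 4 := by simp [acc]
  have e2 : (st0 hd).A *ᵥ v = v := one_mulVec v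
  rw [e, e2]
  constructor <;> linarith

/-- The upper bound. -/
theorem upper (hd : 0 < d) {M K : ℕ} (hM : 0 < M) (hM2 : (d : ℝ) ^ 3 * 16 ^ K ≤ (M : ℝ) ^ 2) :
    minimax d (∑ i ∈ Finset.range (K + 1), rounds d M i) ≤
      4 * C1 * (32 * d ^ 2 * M * 2 ^ K) := by
  haveI : Nonempty (State d) := by
    have hx : ee (⟨0, hd⟩ : Fin d) ≠ 0 := by
      intro h
      have := nrm_ee (⟨0, hd⟩ : Fin d)
      rw [h, nrm_eq_zero.2 rfl] at this
      exact zero_ne_one this
    have hP := (mkProj _ hx).2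
    refine ⟨⟨(mkProj _ hx).1, ?_, proj_trace _⟩⟩
    have h1 : (mkProj _ hx).1 = (mkProj _ hx).1ᴴ * (mkProj _ hx).1 := by
      rw [hP.1.eq, hP.2.1]
    rw [h1]
    exact Matrix.posSemidef_conjTranspose_mul_self _
  have hx : ee (⟨0, hd⟩ : Fin d) ≠ 0 := by
    intro h
    have := nrm_ee (⟨0, hd⟩ : Fin d)
    rw [h, nrm_eq_zero.2 rfl] at this
    exact zero_ne_one this
  have h1 := depth_phases hd M (K + 1) 0 (st0 hd)
  simp only [zero_add] at h1
  apply Prog.minimax_le (mkProj _ hx) h1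
  intro ρ
  have h2 := main_bound hd ρ hM hM2 (K + 1) 0 (by omega) (st0 hd) (good_st0 hd ρ)
  refine h2.trans ?_
  have hC0 := C0_nonneg
  have hC1 : 0 ≤ C1 := by unfold C1; linarith
  have h3 : 0 ≤ C1 * (32 * (d : ℝ) ^ 2 * M * 2 ^ K) := by positivity
  have h4 : (0 : ℝ) ≤ (3 / 4) ^ (K + 1) := by positivity
  nlinarith

end Pool.Agent.NH90.QB
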