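import Pool.Agent.NH90.QB.Vec

open MeasureTheory ProbabilityTheory Matrix
open scoped ENNReal ComplexOrder

namespace Pool.Agent.NH90.QB

variable {d : ℕ}

theorem proj_trace (P : Proj d) : P.1.trace = 1 := by
  obtain ⟨P, hH, hI, hr⟩ := P
  have hid : IsIdempotentElem (Matrix.toLin' P) := by
    unfold IsIdempotentElem
    rw [Module.End.mul_eq_comp, ← Matrix.toLin'_mul, hI]
  have h1 := (LinearMap.isProj_range_iff_isIdempotentElem _).2 hid
  have h2 := h1.trace
  rw [Matrix.trace_toLin'_eq] at h2
  change P.trace = 1
  rw [h2]
  have : P.rank = Module.finrank ℂ (LinearMap.range (Matrix.toLin' P)) := rfl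
  rw [← this, hr]
  simp

theorem born_le_of {ρ : State d} {l : ℝ} (h : ∀ x, qf ρ.mat x ≤ l * nrm x ^ 2) (P : Proj d) :
    born ρ P ≤ l := by
  have hps : (((l : ℂ) • (1 : Matrix (Fin d) (Fin d) ℂ)) - ρ.mat).PosSemidef := by
    apply posSemidef_of_qf
    · apply IsHermitian.sub
      · rw [Matrix.IsHermitian, conjTranspose_smul, conjTranspose_one]
        simp
      · exact ρ.posSemidef.1
    · intro x
      rw [qf_sub, qf_rsmul, qf_one]
      linarith [h x]
  obtain ⟨P, hH, hI, hr⟩ := P
  have h1 := (hps.conjTranspose_mul_mul_same P).trace_nonneg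
  rw [hH.eq, Matrix.trace_mul_comm, ← mul_assoc, hI] at h1
  rw [mul_sub, trace_sub, Matrix.mul_smul, trace_smul, mul_one] at h1
  have h2 := proj_trace ⟨P, hH, hI, hr⟩
  simp only at h2
  rw [h2] at h1
  have h3 := (Complex.nonneg_iff.1 h1).1
  unfold born
  simp only
  rw [Matrix.trace_mul_comm]
  simp at h3
  linarith

theorem born_nonneg (ρ : State d) (P : Proj d) : 0 ≤ born ρ P := by
  obtain ⟨P, hH, hI, hr⟩ := P
  have h1 := (ρ.posSemidef.conjTranspose_mul_mul_same P).trace_nonneg
  rw [hH.eq, Matrix.trace_mul_comm, ← mul_assoc, hI, Matrix.trace_mul_comm] at h1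
  exact (Complex.nonneg_iff.1 h1).1

theorem born_le_one (ρ : State d) (P : Proj d) : born ρ P ≤ 1 := by
  have hps : ((1 : Matrix (Fin d) (Fin d) ℂ) - P.1).PosSemidef := by
    have h1 : ((1 : Matrix (Fin d) (Fin d) ℂ) - P.1) = ((1 : Matrix (Fin d) (Fin d) ℂ) - P.1)ᴴ *
        ((1 : Matrix (Fin d) (Fin d) ℂ) - P.1) := by
      rw [conjTranspose_sub, P.2.1.eq, conjTranspose_one, sub_mul, mul_sub, mul_sub, P.2.2.1]
      simp
    rw [h1]
    exact Matrix.posSemidef_conjTranspose_mul_self _
  obtain ⟨P, hH, hI, hr⟩ := P
  simp only at hps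
  have h1 := (ρ.posSemidef.conjTranspose_mul_mul_same (1 - P)).trace_nonneg
  have hq : (1 - P)ᴴ = 1 - P := by rw [conjTranspose_sub, hH.eq, conjTranspose_one]
  have hq2 : (1 - P) * (1 - P) = 1 - P := by
    rw [sub_mul, mul_sub, mul_sub, hI]; simp
  rw [hq, Matrix.trace_mul_comm, ← mul_assoc, hq2, Matrix.trace_mul_comm, mul_sub, trace_sub,
    mul_one, ρ.trace_eq] at h1
  have h2 := (Complex.nonneg_iff.1 h1).1
  unfold born
  simp at h2
  linarith

instance instMarkovReward (ρ : State d) : IsMarkovKernel (reward ρ) := by
  refine ⟨fun P => ⟨?_⟩⟩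
  change (ENNReal.ofReal (born ρ P) • Measure.dirac true +
    ENNReal.ofReal (1 - born ρ P) • Measure.dirac false) Set.univ = 1
  simp only [Measure.coe_add, Measure.coe_smul, Pi.add_apply, Pi.smul_apply, smul_eq_mul,
    measure_univ, mul_one]
  rw [← ENNReal.ofReal_add (born_nonneg ρ P) (by linarith [born_le_one ρ P])]
  simp

theorem lintegral_reward (ρ : State d) (P : Proj d) (f : Bool → ℝ≥0∞) :
    ∫⁻ b, f b ∂(reward ρ P) =
      ENNReal.ofReal (born ρ P) * f true + ENNReal.ofReal (1 - born ρ P) * f false := by
  change ∫⁻ b, f b ∂(ENNReal.ofReal (born ρ P) • Measure.dirac true +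
    ENNReal.ofReal (1 - born ρ P) • Measure.dirac false) = _
  rw [lintegral_add_measure, lintegral_smul_measure, lintegral_smul_measure]
  simp

/-- Adaptive measurement programs. -/
inductive Prog (d : ℕ) (α : Type) : Type
  | ret : α → Prog d α
  | ask : Proj d → (Bool → Prog d α) → Prog d α

namespace Prog

variable {α β : Type}

/-- expectation of a function of the result -/
noncomputable def E (ρ : State d) : Prog d α → (α → ℝ) → ℝ
  | ret a, f => f a
  | ask P k, f => born ρ P * E ρ (k true) f + (1 - born ρ P) * E ρ (k false) f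

/-- expected cost -/
noncomputable def cost (ρ : State d) : Prog d α → ℝ
  | ret _ => 0
  | ask P k => (best ρ - born ρ P) + (born ρ P * cost ρ (k true) + (1 - born ρ P) * cost ρ (k false))

/-- sequencing -/
def bind : Prog d α → (α → Prog d β) → Prog d β
  | ret a, g => g a
  | ask P k, g => ask P (fun b => bind (k b) g)

/-- all branches have length `n` -/
def Depth : Prog d α → ℕ → Prop
  | ret _, n => n = 0
  | ask _ k, n => ∃ m, n = m + 1 ∧ ∀ b, Depth (k b) m

theorem depth_bind {m : Prog d α} {g : α → Prog d β} {n l : ℕ} (hm : Depth m n)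
    (hg : ∀ a, Depth (g a) l) : Depth (bind m g) (n + l) := by
  induction m generalizing n with
  | ret a =>
    have : n = 0 := hm
    subst this
    simpa [bind] using hg a
  | ask P k ih =>
    obtain ⟨m', rfl, h⟩ := hm
    exact ⟨m' + l, by ring, fun b => ih b (h b)⟩

theorem E_mono (ρ : State d) (m : Prog d α) {f g : α → ℝ} (h : ∀ a, f a ≤ g a) :
    E ρ m f ≤ E ρ m g := by
  induction m with
  | ret a => exact h a
  | ask P k ih =>
    simp only [E]
    have h1 := born_nonneg ρ P
    have h2 := born_le_one ρ P
    have h3 := ih true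
    have h4 := ih false
    have := mul_le_mul_of_nonneg_left h3 h1
    have := mul_le_mul_of_nonneg_left h4 (sub_nonneg.2 h2)
    linarith

theorem E_add (ρ : State d) (m : Prog d α) (f g : α → ℝ) :
    E ρ m (fun a => f a + g a) = E ρ m f + E ρ m g := by
  induction m with
  | ret a => rfl
  | ask P k ih => simp only [E]; rw [ih true, ih false]; ring

theorem E_smul (ρ : State d) (m : Prog d α) (c : ℝ) (f : α → ℝ) :
    E ρ m (fun a => c * f a) = c * E ρ m f := by
  induction m with
  | ret a => rfl
  | ask P k ih => simp only [E]; rw [ih true, ih false]; ring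

theorem E_const (ρ : State d) (m : Prog d α) (c : ℝ) : E ρ m (fun _ => c) = c := by
  induction m with
  | ret a => rfl
  | ask P k ih => simp only [E]; rw [ih true, ih false]; ring

theorem E_bind (ρ : State d) (m : Prog d α) (g : α → Prog d β) (f : β → ℝ) :
    E ρ (bind m g) f = E ρ m (fun a => E ρ (g a) f) := by
  induction m with
  | ret a => rfl
  | ask P k ih => simp only [E, bind]; rw [ih true, ih false]

theorem cost_bind (ρ : State d) (m : Prog d α) (g : α → Prog d β) :
    cost ρ (bind m g) = cost ρ m + E ρ m (fun a => cost ρ (g a)) := by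
  induction m with
  | ret a => simp [bind, cost, E]
  | ask P k ih => simp only [E, bind, cost]; rw [ih true, ih false]; ring

/-- the remaining program along a history -/
def walk (m : Prog d α) : (t : ℕ) → Hist d t → Prog d α
  | 0, _ => m
  | t + 1, h => match walk m t h.1 with
    | ret a => ret a
    | ask _ k => k h.2.2

/-- the next action -/
def act (P₀ : Proj d) : Prog d α → Proj d
  | ret _ => P₀
  | ask P _ => P

theorem walk_depth {m : Prog d α} {n : ℕ} (hm : Depth m n) (t : ℕ) (ht : t ≤ n) (h : Hist d t) :
    Depth (walk m t h) (n - t) := by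
  induction t with
  | zero => simpa [walk] using hm
  | succ t ih =>
    have := ih (by omega) h.1
    simp only [walk]
    cases hw : walk m t h.1 with
    | ret a =>
      rw [hw] at this
      have h0 : n - t = 0 := this
      omega
    | ask P k =>
      rw [hw] at this
      obtain ⟨m', hm', hk⟩ := this
      have : m' = n - (t + 1) := by omega
      rw [← this]
      exact hk _

theorem measurable_walk (m : Prog d α) (t : ℕ) :
    @Measurable (Hist d t) (Prog d α) (instMSHist d t) ⊤ (walk m t) := by
  letI : MeasurableSpace (Prog d α) := ⊤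
  induction t with
  | zero => exact measurable_const
  | succ t ih =>
    have h1 : Measurable (fun x : Prog d α × Bool => (match x.1 with
      | ret a => ret a
      | ask _ k => k x.2 : Prog d α)) := by
      apply measurable_from_prod_countable_left
      intro y
      exact measurable_from_top
    have h2 : Measurable (fun h : Hist d t × (Proj d × Bool) => (walk m t h.1, h.2.2)) := by
      apply Measurable.prodMk
      · exact ih.comp measurable_fst
      · exact measurable_snd.comp measurable_snd
    exact h1.comp h2

theorem measurable_act (P₀ : Proj d) (m : Prog d α) (t : ℕ) :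
    Measurable (fun h : Hist d t => act P₀ (walk m t h)) := by
  letI : MeasurableSpace (Prog d α) := ⊤
  have h1 : Measurable (act P₀ : Prog d α → Proj d) := measurable_from_top
  exact h1.comp (measurable_walk m t)

/-- the policy of a program -/
noncomputable def policy (P₀ : Proj d) (m : Prog d α) : Policy d where
  ker t := Kernel.deterministic (fun h => act P₀ (walk m t h)) (measurable_act P₀ m t)
  markov t := inferInstance

theorem bddAbove_born (ρ : State d) : BddAbove (Set.range (born ρ)) := by
  refine ⟨1, ?_⟩
  rintro _ ⟨P, rfl⟩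
  exact born_le_one ρ P

theorem born_le_best (ρ : State d) (P : Proj d) : born ρ P ≤ best ρ :=
  le_ciSup (bddAbove_born ρ) P

theorem regret_nonneg (ρ : State d) (t : ℕ) (h : Hist d t) : 0 ≤ regret ρ t h := by
  induction t with
  | zero => exact le_rfl
  | succ t ih =>
    simp only [regret]
    have := ih h.1
    have := born_le_best ρ h.2.1
    linarith

theorem measurable_regret (ρ : State d) (t : ℕ) : Measurable (regret ρ t) := by
  induction t with
  | zero => exact measurable_const
  | succ t ih =>
    have : Measurable (fun h : Hist d t × (Proj d × Bool) =>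
        regret ρ t h.1 + (best ρ - born ρ h.2.1)) := by
      apply Measurable.add
      · exact ih.comp measurable_fst
      · apply Measurable.sub measurable_const
        exact (measurable_born ρ).comp (measurable_fst.comp measurable_snd)
    exact this

theorem cost_nonneg (ρ : State d) (m : Prog d α) : 0 ≤ cost ρ m := by
  induction m with
  | ret a => exact le_rfl
  | ask P k ih =>
    simp only [cost]
    have h1 := born_nonneg ρ P
    have h2 := born_le_one ρ P
    have h5 := born_le_best ρ P
    have := mul_nonneg h1 (ih true)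
    have := mul_nonneg (sub_nonneg.2 h2) (ih false)
    linarith

instance instSFiniteLaw (ρ : State d) (π : Policy d) (t : ℕ) : IsProbabilityMeasure (law ρ π t) := by
  induction t with
  | zero => 
    change IsProbabilityMeasure (Measure.dirac ())
    infer_instance
  | succ t ih =>
    haveI := π.markov t
    haveI := ih
    change IsProbabilityMeasure ((law ρ π t) ⊗ₘ (π.ker t ⊗ₖ (reward ρ).comap Prod.snd measurable_snd))
    infer_instance

theorem lintegral_law (ρ : State d) (P₀ : Proj d) (m : Prog d α) (t : ℕ)
    {F : Hist d (t + 1) → ℝ≥0∞} (hF : Measurable F) :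
    ∫⁻ h, F h ∂(law ρ (policy P₀ m) (t + 1)) =
      ∫⁻ h, (ENNReal.ofReal (born ρ (act P₀ (walk m t h))) * F (h, (act P₀ (walk m t h), true)) +
        ENNReal.ofReal (1 - born ρ (act P₀ (walk m t h))) *
          F (h, (act P₀ (walk m t h), false))) ∂(law ρ (policy P₀ m) t) := by
  change ∫⁻ h : Hist d t × (Proj d × Bool), F h ∂((law ρ (policy P₀ m) t) ⊗ₘ
    ((policy P₀ m).ker t ⊗ₖ (reward ρ).comap Prod.snd measurable_snd)) = _
  haveI := (policy P₀ m).markov t
  rw [Measure.lintegral_compProd hF]
  apply lintegral_congr
  intro h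
  rw [Kernel.lintegral_compProd _ _ _ (by
    exact hF.comp (Measurable.prodMk measurable_const measurable_id))]
  have : (policy P₀ m).ker t = Kernel.deterministic (fun h => act P₀ (walk m t h))
    (measurable_act P₀ m t) := rfl
  rw [this, Kernel.lintegral_deterministic']
  · rw [Kernel.comap_apply, lintegral_reward]
  · have hm : Measurable (fun x : Proj d × Bool => F (h, x)) :=
      hF.comp (Measurable.prodMk measurable_const measurable_id)
    have := hm.lintegral_kernel_prod_right' (κ := reward ρ)
    exact this

theorem main_lintegral (ρ : State d) (P₀ : Proj d) {m : Prog d α} {n : ℕ} (hm : Depth m n)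
    (t : ℕ) (ht : t ≤ n) :
    ∫⁻ h, ENNReal.ofReal (regret ρ t h + cost ρ (walk m t h)) ∂(law ρ (policy P₀ m) t) =
      ENNReal.ofReal (cost ρ m) := by
  induction t with
  | zero =>
    change ∫⁻ h : Unit, ENNReal.ofReal (0 + cost ρ m) ∂(Measure.dirac ()) = _
    simp
  | succ t ih =>
    have hmeas : Measurable (fun h : Hist d (t + 1) =>
        ENNReal.ofReal (regret ρ (t + 1) h + cost ρ (walk m (t + 1) h))) := by
      apply Measurable.ennreal_ofReal
      apply (measurable_regret ρ (t + 1)).add
      letI : MeasurableSpace (Prog d α) := ⊤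
      have h1 : Measurable (cost ρ : Prog d α → ℝ) := measurable_from_top
      exact h1.comp (measurable_walk m (t + 1))
    rw [lintegral_law ρ P₀ m t hmeas]
    rw [← ih (by omega)]
    apply lintegral_congr
    intro h
    have hd := walk_depth hm t (by omega) h
    cases hw : walk m t h with
    | ret a =>
      rw [hw] at hd
      have h0 : n - t = 0 := hd
      omega
    | ask P k =>
      have h1 : ∀ b, walk m (t + 1) ((h, (P, b)) : Hist d t × (Proj d × Bool)) = k b := by
        intro b
        simp only [walk]
        rw [hw]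
      have h2 : ∀ b, regret ρ (t + 1) ((h, (P, b)) : Hist d t × (Proj d × Bool)) =
        regret ρ t h + (best ρ - born ρ P) := fun b => rfl
      simp only [act]
      rw [h1, h1, h2, h2]
      have hb0 := born_nonneg ρ P
      have hb1 := born_le_one ρ P
      have hb2 := born_le_best ρ P
      have hr := regret_nonneg ρ t h
      have c1 := cost_nonneg ρ (k true)
      have c2 := cost_nonneg ρ (k false)
      rw [← ENNReal.ofReal_mul hb0, ← ENNReal.ofReal_mul (by linarith), ← ENNReal.ofReal_add]
      · congr 1
        simp only [cost]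
        ring
      · apply mul_nonneg hb0; linarith
      · apply mul_nonneg <;> linarith

theorem expRegret_eq (ρ : State d) (P₀ : Proj d) {m : Prog d α} {n : ℕ} (hm : Depth m n) :
    expRegret ρ (policy P₀ m) n = cost ρ m := by
  unfold expRegret
  rw [integral_eq_lintegral_of_nonneg_ae]
  · have h := main_lintegral ρ P₀ hm n le_rfl
    have h2 : ∀ h : Hist d n, cost ρ (walk m n h) = 0 := by
      intro h
      have hd := walk_depth hm n le_rfl h
      cases hw : walk m n h with
      | ret a => rfl
      | ask P k =>
        rw [hw] at hd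
        obtain ⟨m', h1, _⟩ := hd
        omega
    simp only [h2, add_zero] at h
    rw [h, ENNReal.toReal_ofReal (cost_nonneg ρ m)]
  · exact Filter.Eventually.of_forall (regret_nonneg ρ n)
  · exact (measurable_regret ρ n).aestronglyMeasurable

theorem expRegret_nonneg (ρ : State d) (π : Policy d) (n : ℕ) : 0 ≤ expRegret ρ π n :=
  integral_nonneg (regret_nonneg ρ n)

theorem minimax_le [Nonempty (State d)] (P₀ : Proj d) {m : Prog d α} {n : ℕ} (hm : Depth m n)
    {c : ℝ} (hc : ∀ ρ : State d, cost ρ m ≤ c) : minimax d n ≤ c := by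
  unfold minimax
  refine (ciInf_le ⟨0, ?_⟩ (policy P₀ m)).trans ?_
  · rintro _ ⟨π, rfl⟩
    exact Real.iSup_nonneg fun ρ => expRegret_nonneg ρ π n
  · apply ciSup_le
    intro ρ
    rw [expRegret_eq ρ P₀ hm]
    exact hc ρ

end Prog

end Pool.Agent.NH90.QB
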