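import Pool.Agent.NH90.QB.Defs

open MeasureTheory ProbabilityTheory Matrix
open scoped ENNReal ComplexOrder

namespace Pool.Agent.NH90.QB

variable {d : ℕ}

/-- Euclidean norm of a vector -/
noncomputable def nrm (x : Fin d → ℂ) : ℝ := ‖(WithLp.toLp 2 x : EuclideanSpace ℂ (Fin d))‖

/-- real quadratic form -/
noncomputable def qf (M : Matrix (Fin d) (Fin d) ℂ) (x : Fin d → ℂ) : ℝ := (star x ⬝ᵥ M *ᵥ x).re

theorem nrm_nonneg (x : Fin d → ℂ) : 0 ≤ nrm x := norm_nonneg _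

theorem nrm_sq (x : Fin d → ℂ) : nrm x ^ 2 = ∑ i, ‖x i‖ ^ 2 := by
  unfold nrm
  rw [EuclideanSpace.norm_sq_eq]

theorem nrm_add_le (x y : Fin d → ℂ) : nrm (x + y) ≤ nrm x + nrm y := by
  unfold nrm
  have : (WithLp.toLp 2 (x + y) : EuclideanSpace ℂ (Fin d)) = WithLp.toLp 2 x + WithLp.toLp 2 y := rfl
  rw [this]; exact norm_add_le _ _

theorem nrm_smul (c : ℂ) (x : Fin d → ℂ) : nrm (c • x) = ‖c‖ * nrm x := by
  unfold nrm
  have : (WithLp.toLp 2 (c • x) : EuclideanSpace ℂ (Fin d)) = c • WithLp.toLp 2 x := rfl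
  rw [this]; exact norm_smul _ _

theorem nrm_eq_zero {x : Fin d → ℂ} : nrm x = 0 ↔ x = 0 := by
  constructor
  · intro h
    have := nrm_sq x
    rw [h] at this
    have h2 : ∑ i, ‖x i‖ ^ 2 = 0 := by rw [← this]; norm_num
    rw [Finset.sum_eq_zero_iff_of_nonneg (fun i _ => by positivity)] at h2
    funext i
    have := h2 i (Finset.mem_univ i)
    simpa using this
  · rintro rfl
    have := nrm_sq (0 : Fin d → ℂ)
    simpa using this

theorem nrm_neg (x : Fin d → ℂ) : nrm (-x) = nrm x := by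
  have := nrm_smul (-1) x
  simpa using this

theorem le_nrm_add (x y : Fin d → ℂ) : nrm x - nrm y ≤ nrm (x + y) := by
  have := nrm_add_le (x + y) (-y)
  rw [nrm_neg] at this
  simp only [add_neg_cancel_right] at this
  linarith

theorem star_dot_self (x : Fin d → ℂ) : star x ⬝ᵥ x = ((nrm x ^ 2 : ℝ) : ℂ) := by
  rw [nrm_sq]
  simp only [dotProduct, Pi.star_apply, RCLike.star_def]
  push_cast
  apply Finset.sum_congr rfl
  intro i _
  rw [mul_comm, Complex.mul_conj, Complex.normSq_eq_norm_sq]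
  push_cast; rfl

theorem norm_dot_le (x y : Fin d → ℂ) : ‖star x ⬝ᵥ y‖ ≤ nrm x * nrm y := by
  have h := norm_inner_le_norm (𝕜 := ℂ) (WithLp.toLp 2 x : EuclideanSpace ℂ (Fin d)) (WithLp.toLp 2 y)
  rw [EuclideanSpace.inner_eq_star_dotProduct] at h
  rw [dotProduct_comm] at h
  exact h

theorem qf_one (x : Fin d → ℂ) : qf 1 x = nrm x ^ 2 := by
  unfold qf
  rw [one_mulVec, star_dot_self, Complex.ofReal_re]

theorem qf_add (M N : Matrix (Fin d) (Fin d) ℂ) (x : Fin d → ℂ) : qf (M + N) x = qf M x + qf N x := by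
  unfold qf
  rw [add_mulVec, dotProduct_add, Complex.add_re]

theorem qf_sub (M N : Matrix (Fin d) (Fin d) ℂ) (x : Fin d → ℂ) : qf (M - N) x = qf M x - qf N x := by
  unfold qf
  rw [sub_mulVec, dotProduct_sub, Complex.sub_re]

theorem qf_rsmul (c : ℝ) (M : Matrix (Fin d) (Fin d) ℂ) (x : Fin d → ℂ) :
    qf ((c : ℂ) • M) x = c * qf M x := by
  unfold qf
  rw [smul_mulVec, dotProduct_smul]
  simp

theorem qf_conj (A M : Matrix (Fin d) (Fin d) ℂ) (x : Fin d → ℂ) :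
    qf (Aᴴ * M * A) x = qf M (A *ᵥ x) := by
  unfold qf
  rw [star_mulVec, ← mulVec_mulVec, ← mulVec_mulVec, dotProduct_mulVec]

theorem qf_conjSelf (A : Matrix (Fin d) (Fin d) ℂ) (x : Fin d → ℂ) :
    qf (Aᴴ * A) x = nrm (A *ᵥ x) ^ 2 := by
  rw [← qf_one, ← qf_conj, Matrix.mul_one]

theorem qf_smul_vec (M : Matrix (Fin d) (Fin d) ℂ) (c : ℂ) (x : Fin d → ℂ) :
    qf M (c • x) = ‖c‖ ^ 2 * qf M x := by
  unfold qf
  rw [mulVec_smul, dotProduct_smul, star_smul, smul_dotProduct]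
  simp only [smul_eq_mul, RCLike.star_def]
  rw [← mul_assoc, Complex.mul_conj, Complex.normSq_eq_norm_sq]
  rw [Complex.re_ofReal_mul]

theorem abs_qf_le (M : Matrix (Fin d) (Fin d) ℂ) (x : Fin d → ℂ) :
    |qf M x| ≤ nrm x * nrm (M *ᵥ x) := by
  unfold qf
  exact (Complex.abs_re_le_norm _).trans (norm_dot_le _ _)

/-- A Hermitian matrix with nonnegative form is positive semidefinite. -/
theorem posSemidef_of_qf {M : Matrix (Fin d) (Fin d) ℂ} (hM : M.IsHermitian)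
    (h : ∀ x, 0 ≤ qf M x) : M.PosSemidef := by
  rw [Matrix.posSemidef_iff_dotProduct_mulVec]
  refine ⟨hM, fun x => ?_⟩
  have him : (star x ⬝ᵥ M *ᵥ x).im = 0 := by
    have := hM.im_star_dotProduct_mulVec_self x
    exact this
  rw [Complex.nonneg_iff]
  exact ⟨h x, him.symm⟩

theorem qf_nonneg_of_posSemidef {M : Matrix (Fin d) (Fin d) ℂ} (hM : M.PosSemidef) (x : Fin d → ℂ) :
    0 ≤ qf M x := by
  have := (Matrix.posSemidef_iff_dotProduct_mulVec.1 hM).2 x
  exact (Complex.nonneg_iff.1 this).1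

end Pool.Agent.NH90.QB
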